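import Pool.Agent.H17.RC.Main

/-!
# Fields `∂_z + (A w^(k+1) + B w) ∂_w`
-/

set_option autoImplicit false

open MeasureTheory

namespace Pool.Agent.H17.RC

/-- `A w^(k+1) + B w`. -/
def Bern (k : ℕ) (A B : ℂ → ℂ) (z w : ℂ) : ℂ := A z * w ^ (k + 1) + B z * w

variable {A B : ℂ → ℂ} {k : ℕ}

/-- A curve tangent to the Bernoulli field gives one tangent to the Riccati field. -/
lemma bern_down (hk : 1 ≤ k) {p : ℂ × ℂ} (hp : p ∈ PlanePts (fun _ _ => 1) (Bern k A B)) :
    (p.1, p.2 ^ k) ∈ PlanePts (fun _ _ => 1)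
      (Ric (fun z => k * A z) (fun z => k * B z) (fun _ => 0)) := by
  obtain ⟨f, g, hf, hg, hf0, hg0, hnc, ht⟩ := hp
  have hdg : ∀ t, HasDerivAt g (deriv f t * Bern k A B (f t) (g t)) t := by
    intro t
    obtain ⟨-, l, h1, h2⟩ := ht t
    rw [mul_one] at h1
    rw [h1]
    have h3 := (hg t).hasDerivAt
    rw [h2] at h3
    exact h3
  have hfc : ∃ t, f t ≠ f 0 := by
    by_contra hcon
    push Not at hcon
    have hdf : ∀ t, deriv f t = 0 := by
      intro t
      rw [show f = fun _ => f 0 from funext hcon]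
      simp
    have hgc : ∀ t, g t = g 0 := by
      intro t
      apply is_const_of_deriv_eq_zero (𝕜 := ℂ) hg
      intro s
      rw [(hdg s).deriv, hdf, zero_mul]
    obtain ⟨t, h1 | h1⟩ := hnc
    · exact h1 (hcon t)
    · exact h1 (hgc t)
  obtain ⟨t, ht0⟩ := hfc
  refine ⟨f, fun t => g t ^ k, hf, hg.pow k, hf0, by simp [hg0], ⟨t, Or.inl ht0⟩, fun t => ?_⟩
  refine ⟨Or.inl one_ne_zero, deriv f t, (mul_one _).symm, ?_⟩
  have h1 := (hdg t).pow k
  have h2 : deriv (fun t => g t ^ k) t =
      k * g t ^ (k - 1) * (deriv f t * Bern k A B (f t) (g t)) := h1.deriv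
  rw [h2]
  obtain ⟨j, rfl⟩ : ∃ j, k = j + 1 := ⟨k - 1, by omega⟩
  simp only [Bern, Ric, Nat.add_sub_cancel]
  ring

/-- The converse. -/
lemma bern_up (hk : 1 ≤ k) (hA : Differentiable ℂ A) (hB : Differentiable ℂ B) {p : ℂ × ℂ}
    (hp : (p.1, p.2 ^ k) ∈ PlanePts (fun _ _ => 1)
      (Ric (fun z => k * A z) (fun z => k * B z) (fun _ => 0))) :
    p ∈ PlanePts (fun _ _ => 1) (Bern k A B) := by
  have hk0 : (k : ℂ) ≠ 0 := by
    have : k ≠ 0 := by omega
    exact_mod_cast this
  by_cases hp2 : p.2 = 0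
  · refine ⟨fun t => p.1 + t, fun _ => 0, (differentiable_const _).add differentiable_id,
      differentiable_const _, by simp, hp2.symm, ⟨1, Or.inl (by simp)⟩, fun t => ?_⟩
    refine ⟨Or.inl one_ne_zero, deriv (fun t => p.1 + t) t, (mul_one _).symm, ?_⟩
    simp [Bern]
  obtain ⟨f, v, hf, hv, hf0, hv0, hnc, ht⟩ := hp
  have hf0' : f 0 = p.1 := hf0
  have hv0' : v 0 = p.2 ^ k := hv0
  have hdv : ∀ t, HasDerivAt v (deriv f t * (k * A (f t) * v t + k * B (f t)) * v t) t := by
    intro t
    obtain ⟨-, l, h1, h2⟩ := ht t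
    rw [mul_one] at h1
    rw [h1]
    have h3 := (hv t).hasDerivAt
    rw [h2] at h3
    refine h3.congr_deriv ?_
    simp only [Ric]
    ring
  have hdf : Differentiable ℂ (deriv f) := (hf.contDiff (n := 2)).differentiable_deriv_two
  have hvne : ∀ t, v t ≠ 0 := by
    intro t0 h0
    have hE := linear_zero (E := fun t => v (t + t0))
      (k := fun t => deriv f (t + t0) * (k * A (f (t + t0)) * v (t + t0) + k * B (f (t + t0))))
      (by
        have e : Differentiable ℂ (fun t : ℂ => t + t0) := differentiable_id.add_const _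
        have e1 : Differentiable ℂ (fun t : ℂ => f (t + t0)) := hf.comp e
        exact (hdf.comp e).mul
          ((((differentiable_const _).mul (hA.comp e1)).mul (hv.comp e)).add
            ((differentiable_const _).mul (hB.comp e1))))
      (fun t => (hdv (t + t0)).comp_add_const t t0) (by simpa using h0) (-t0)
    have h5 : v 0 = 0 := by simpa using hE
    rw [hv0'] at h5
    exact hp2 (pow_eq_zero_iff (by omega) |>.mp h5)
  obtain ⟨q, hq, hqe⟩ := Pool.Agent.H13.Borel.exists_entire_log (g := v) hv hvne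
  -- the root
  obtain ⟨c, hc⟩ : ∃ c, c = p.2 / Complex.exp (q 0 / k) := ⟨_, rfl⟩
  have hroot : ∀ t, Complex.exp (q t / k) ^ k = v t := by
    intro t
    rw [← Complex.exp_nat_mul, mul_div_cancel₀ _ hk0]
    exact (hqe t).symm
  have hck : c ^ k = 1 := by
    rw [hc, div_pow, hroot, hv0']
    exact div_self (pow_ne_zero _ hp2)
  have hdq : ∀ t, deriv q t = deriv f t * (k * A (f t) * v t + k * B (f t)) := by
    intro t
    have h1 : HasDerivAt v (Complex.exp (q t) * deriv q t) t := by
      have h2 := ((hq t).hasDerivAt).cexp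
      rw [show v = fun t => Complex.exp (q t) from funext hqe]
      exact h2
    have h3 := h1.unique (hdv t)
    rw [← hqe t] at h3
    have h4 : v t * (deriv q t - deriv f t * (k * A (f t) * v t + k * B (f t))) = 0 := by
      linear_combination h3
    exact sub_eq_zero.mp ((mul_eq_zero.mp h4).resolve_left (hvne t))
  have hdg : ∀ t, HasDerivAt (fun t => c * Complex.exp (q t / k))
      (deriv f t * Bern k A B (f t) (c * Complex.exp (q t / k))) t := by
    intro t
    have h1 := (((hq t).hasDerivAt.div_const (k : ℂ)).cexp).const_mul c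
    refine h1.congr_deriv ?_
    have h2 : (c * Complex.exp (q t / k)) ^ k = v t := by
      rw [mul_pow, hck, hroot, one_mul]
    simp only [Bern]
    rw [pow_succ, h2, hdq]
    field_simp
  refine ⟨f, fun t => c * Complex.exp (q t / k), hf, fun t => (hdg t).differentiableAt, hf0', ?_,
    ?_, fun t => ?_⟩
  · show c * Complex.exp (q 0 / k) = p.2
    rw [hc, div_mul_cancel₀ _ (Complex.exp_ne_zero _)]
  · by_contra hcon
    push Not at hcon
    obtain ⟨t, h1 | h1⟩ := hnc
    · exact h1 (hcon t).1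
    · apply h1
      have h6 : ∀ s, v s = (c * Complex.exp (q s / k)) ^ k := by
        intro s
        rw [mul_pow, hck, hroot, one_mul]
      rw [h6 t, h6 0]
      exact congrArg (fun w => w ^ k) (hcon t).2
  · refine ⟨Or.inl one_ne_zero, deriv f t, (mul_one _).symm, ?_⟩
    exact (hdg t).deriv

/-- **Bernoulli fields**: all points are on leaves covered by `ℂ`, or these leaves are on at most
three curves `y w ^ k = x`. -/
theorem bern_main (k : ℕ) (hk : 1 ≤ k) (A B : ℂ → ℂ) (hA : Differentiable ℂ A)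
    (hB : Differentiable ℂ B) :
    PlanePts (fun _ _ => 1) (Bern k A B) = Set.univ ∨
      ∃ x y : Fin 3 → ℂ → ℂ, (∀ i, Sol (fun z => k * A z) (fun z => k * B z) (fun _ => 0)
          (x i) (y i) ∧ ∀ z, x i z ≠ 0 ∨ y i z ≠ 0) ∧
        PlanePts (fun _ _ => 1) (Bern k A B) ⊆ {p | ∃ i, y i p.1 * p.2 ^ k = x i p.1} := by
  rcases main (fun z => k * A z) (fun z => k * B z) (fun _ => 0)
    ((differentiable_const _).mul hA) ((differentiable_const _).mul hB)
    (differentiable_const _) with h | ⟨x, y, hs, h⟩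
  · left
    rw [Set.eq_univ_iff_forall]
    intro p
    exact bern_up hk hA hB (by rw [h]; exact Set.mem_univ _)
  · right
    exact ⟨x, y, hs, fun p hp => h (bern_down hk hp)⟩

end Pool.Agent.H17.RC
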