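import Pool.Agent.H17.RC.BernTwo

/-!
# Bernoulli fields: an example with exactly two curves
-/

set_option autoImplicit false

namespace Pool.Agent.H17.RC

theorem bern_ex_sol {k : ℕ} (hk : 1 ≤ k) (a b : ℂ) :
    Sol (fun z => k * (-Complex.exp z / k)) (fun _ => k * 0) (fun _ => 0)
      (fun _ => a) (fun z => a * Complex.exp z + b) := by
  have hk0 : (k : ℂ) ≠ 0 := by
    have : k ≠ 0 := by omega
    exact_mod_cast this
  constructor
  · intro z
    refine (hasDerivAt_const z a).congr_deriv ?_
    ring
  · intro z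
    have h : HasDerivAt (fun z : ℂ => a * Complex.exp z + b) (a * Complex.exp z) z :=
      ((Complex.hasDerivAt_exp z).const_mul a).add_const b
    refine h.congr_deriv ?_
    rw [mul_div_cancel₀ _ hk0]
    ring

/-- For the field `∂_z - (e^z / k) w^(k+1) ∂_w` the points on leaves covered by `ℂ` are those with
`w = 0` or `e^z w^k = 1`. -/
theorem bern_example (k : ℕ) (hk : 1 ≤ k) :
    PlanePts (fun _ _ => 1) (Bern k (fun z => -Complex.exp z / k) (fun _ => 0)) =
      {p | p.2 = 0 ∨ Complex.exp p.1 * p.2 ^ k = 1} := by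
  have hk0 : (k : ℂ) ≠ 0 := by
    have : k ≠ 0 := by omega
    exact_mod_cast this
  ext p
  obtain ⟨a, ha⟩ : ∃ a, a = p.2 ^ k := ⟨_, rfl⟩
  obtain ⟨b, hb⟩ : ∃ b, b = 1 - p.2 ^ k * Complex.exp p.1 := ⟨_, rfl⟩
  have hy : a * Complex.exp p.1 + b = 1 := by rw [ha, hb]; ring
  have hxy : ∀ z : ℂ, a ≠ 0 ∨ a * Complex.exp z + b ≠ 0 := by
    intro z
    by_contra hcon
    push Not at hcon
    obtain ⟨h1, h2⟩ := hcon
    have hb0 : b = 0 := by rw [h1] at h2; linear_combination h2
    rw [h1, hb0] at hy
    simp at hy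
  have hA : Differentiable ℂ (fun z : ℂ => -Complex.exp z / k) := by fun_prop
  have hA' : Differentiable ℂ (fun z : ℂ => (k : ℂ) * (-Complex.exp z / k)) := by fun_prop
  have hB' : Differentiable ℂ (fun _ : ℂ => (k : ℂ) * 0) := by fun_prop
  have hp1 : a = p.2 ^ k * (a * Complex.exp p.1 + b) := by rw [hy, mul_one, ha]
  have h1 : p ∈ PlanePts (fun _ _ => 1) (Bern k (fun z => -Complex.exp z / k) (fun _ => 0)) ↔
      ∃ r, ∀ z, a * Complex.exp z + b = 0 → z = r := by
    constructor
    · intro hp
      exact at_most_one hA' hB' (bern_ex_sol hk a b) hxy (p := (p.1, p.2 ^ k)) hp1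
        (bern_down hk hp)
    · intro hr
      apply bern_up hk hA (differentiable_const _)
      exact plane_of_at_most_one (bern_ex_sol hk a b) (p := (p.1, p.2 ^ k)) hp1
        (by show a * Complex.exp p.1 + b ≠ 0; rw [hy]; exact one_ne_zero) hr
  have h2 : (∃ r, ∀ z, a * Complex.exp z + b = 0 → z = r) ↔ (a = 0 ∨ b = 0) := by
    constructor
    · rintro ⟨r, hr⟩
      by_contra hcon
      push Not at hcon
      obtain ⟨ha0, hb0⟩ := hcon
      have hq : -b / a ≠ 0 := div_ne_zero (neg_ne_zero.mpr hb0) ha0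
      have e0 : a * Complex.exp (Complex.log (-b / a)) + b = 0 := by
        rw [Complex.exp_log hq]
        field_simp
        ring
      have e1 : a * Complex.exp (Complex.log (-b / a) + 2 * Real.pi * Complex.I) + b = 0 := by
        rw [Complex.exp_add, Complex.exp_two_pi_mul_I, mul_one]
        exact e0
      have e2 := hr _ e0
      have e3 := hr _ e1
      have e4 : 2 * (Real.pi : ℂ) * Complex.I = 0 := by linear_combination e3 - e2
      exact Complex.two_pi_I_ne_zero e4
    · rintro (h | h)
      · refine ⟨0, fun z hz => ?_⟩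
        exfalso
        rw [h] at hz hy
        have hb0 : b = 0 := by linear_combination hz
        rw [hb0] at hy
        simp at hy
      · refine ⟨0, fun z hz => ?_⟩
        exfalso
        rw [h] at hz hy
        have ha0 : a ≠ 0 := by
          rintro rfl
          simp at hy
        exact (mul_ne_zero ha0 (Complex.exp_ne_zero z)) (by linear_combination hz)
  rw [h1, h2]
  change _ ↔ (p.2 = 0 ∨ Complex.exp p.1 * p.2 ^ k = 1)
  have h3 : a = 0 ↔ p.2 = 0 := by
    rw [ha]
    exact pow_eq_zero_iff (by omega)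
  have h4 : b = 0 ↔ Complex.exp p.1 * p.2 ^ k = 1 := by
    rw [hb]
    constructor
    · intro h; linear_combination -h
    · intro h; linear_combination -h
  rw [h3, h4]

end Pool.Agent.H17.RC
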