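import Pool.Agent.H17.RC.BernEx

/-!
# Bernoulli fields: the measure form
-/

set_option autoImplicit false

open MeasureTheory

namespace Pool.Agent.H17.RC

lemma bern_null {k : ℕ} (hk : 1 ≤ k) {x y : ℂ → ℂ} (hx : Continuous x) (hy : Continuous y)
    (hxy : ∀ z, x z ≠ 0 ∨ y z ≠ 0) :
    volume {p : ℂ × ℂ | p.2 = 0 ∨ y p.1 * p.2 ^ k = x p.1} = 0 := by
  have hm : MeasurableSet {p : ℂ × ℂ | p.2 = 0 ∨ y p.1 * p.2 ^ k = x p.1} := by
    apply IsClosed.measurableSet
    exact (isClosed_eq continuous_snd continuous_const).union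
      (isClosed_eq ((hy.comp continuous_fst).mul (continuous_snd.pow k)) (hx.comp continuous_fst))
  rw [Measure.volume_eq_prod, Measure.measure_prod_null hm]
  filter_upwards with z
  apply Set.Finite.measure_zero
  refine Set.Finite.subset (s := {0} ∪ ((Polynomial.nthRoots k (x z / y z)).toFinset : Set ℂ))
    ((Set.finite_singleton 0).union (Finset.finite_toSet _)) ?_
  intro w hw
  have hw' : w = 0 ∨ y z * w ^ k = x z := hw
  rcases hw' with h | h
  · exact Or.inl h
  · right
    have hyz : y z ≠ 0 := by
      intro h0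
      rw [h0, zero_mul] at h
      rcases hxy z with h1 | h1
      · exact h1 h.symm
      · exact h1 h0
    have h2 : w ^ k = x z / y z := by
      rw [eq_div_iff hyz]
      linear_combination h
    simpa using (Polynomial.mem_nthRoots (by omega : 0 < k)).mpr h2

end Pool.Agent.H17.RC
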