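import Mathlib
import Pool.Agent.H13.Borel.Borel
import Pool.Agent.H13.Borel.EntireLog

set_option autoImplicit false

/-! Four solutions with at most one zero. -/

namespace Pool.Agent.H17.RC

open Polynomial Pool.Agent.H13.Borel

/-- an entire function with at most one zero -/
theorem normal_form {g : ℂ → ℂ} (hg : Differentiable ℂ g) {r : ℂ} (hr : ∀ z, g z = 0 → z = r) :
    ∃ (c : ℂ) (m : ℕ) (φ : ℂ → ℂ), c ≠ 0 ∧ Differentiable ℂ φ ∧ φ 0 = 0 ∧
      ∀ z, g z = (C c * (X - C r) ^ m).eval z * Complex.exp (φ z) := by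
  have hne : ∃ z, g z ≠ 0 := by
    by_contra hcon
    push Not at hcon
    have h1 := hr (r + 1) (hcon _)
    have h2 : (1 : ℂ) = 0 := by linear_combination h1
    exact one_ne_zero h2
  have hfin : {z | g z = 0}.Finite := (Set.finite_singleton r).subset fun z hz => hr z hz
  obtain ⟨p, φ, hp, hφ, h⟩ := exists_poly_mul_exp hg hne hfin
  have hroot : ∀ z, p.eval z = 0 → z = r := by
    intro z hz
    apply hr
    rw [h z, hz, zero_mul]
  obtain ⟨q, hq, hnd⟩ := exists_eq_pow_rootMultiplicity_mul_and_not_dvd p hp r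
  have hq0 : ∀ z, q.eval z ≠ 0 := by
    intro z hz
    have h1 : p.eval z = 0 := by rw [hq, eval_mul, hz, mul_zero]
    have h2 := hroot z h1
    rw [h2] at hz
    exact hnd (dvd_iff_isRoot.2 hz)
  have hdeg : q.degree = 0 := by
    by_contra hcon
    obtain ⟨z, hz⟩ := IsAlgClosed.exists_root q hcon
    exact hq0 z hz
  have hqC := eq_C_of_degree_eq_zero hdeg
  have hc0 : q.coeff 0 ≠ 0 := by
    have h1 := hq0 0
    rw [hqC, eval_C] at h1
    exact h1
  refine ⟨q.coeff 0 * Complex.exp (φ 0), p.rootMultiplicity r, fun z => φ z - φ 0,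
    mul_ne_zero hc0 (Complex.exp_ne_zero _), hφ.sub_const _, sub_self _, ?_⟩
  intro z
  have h1 : p.eval z = (z - r) ^ p.rootMultiplicity r * q.coeff 0 := by
    conv_lhs => rw [hq, hqC]
    simp
  rw [h z, h1]
  have h2 : Complex.exp (φ z) = Complex.exp (φ 0) * Complex.exp (φ z - φ 0) := by
    rw [← Complex.exp_add]
    congr 1
    ring
  rw [h2]
  simp only [eval_mul, eval_C, eval_pow, eval_sub, eval_X]
  ring

/-- three powers of distinct linear forms -/
theorem three_pow {A B D u v w : ℂ} {d : ℕ} (hd : 2 ≤ d) (hB : B ≠ 0) (huv : u ≠ v) (hvw : w ≠ v)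
    (h : ∀ z, A * (z - u) ^ d + B * (z - v) ^ d + D * (z - w) ^ d = 0) : False := by
  obtain ⟨e, rfl⟩ : ∃ e, d = e + 2 := ⟨d - 2, by omega⟩
  have hF : C A * (X - C u) ^ (e + 2) + C B * (X - C v) ^ (e + 2) +
      C D * (X - C w) ^ (e + 2) = 0 := by
    apply Polynomial.funext
    intro z
    simpa using h z
  have hF' := congrArg (fun p => (derivative p).eval u) hF
  have h0 := h u
  simp only [derivative_add, derivative_mul, derivative_C, zero_mul, zero_add,
    derivative_X_sub_C_pow, derivative_zero, eval_zero, eval_add, eval_mul, eval_C, eval_pow,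
    eval_sub, eval_X, sub_self] at hF'
  have h1 : e + 2 - 1 = e + 1 := by omega
  rw [h1] at hF'
  have hn : ((e + 2 : ℕ) : ℂ) ≠ 0 := by
    exact_mod_cast (by omega : e + 2 ≠ 0)
  have h2 : B * (u - v) ^ (e + 1) + D * (u - w) ^ (e + 1) = 0 := by
    have h3 : ((e + 2 : ℕ) : ℂ) * (B * (u - v) ^ (e + 1) + D * (u - w) ^ (e + 1)) = 0 := by
      have h4 : (0 : ℂ) ^ (e + 1) = 0 := by simp
      rw [h4] at hF'
      linear_combination hF'
    exact (mul_eq_zero.1 h3).resolve_left hn
  have h5 : B * (u - v) ^ (e + 1) * (w - v) = 0 := by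
    have h4 : (u - u) ^ (e + 2) = (0 : ℂ) := by simp
    rw [h4] at h0
    linear_combination h0 - (u - w) * h2
  have h6 : B * (u - v) ^ (e + 1) * (w - v) ≠ 0 :=
    mul_ne_zero (mul_ne_zero hB (pow_ne_zero _ (sub_ne_zero.2 huv))) (sub_ne_zero.2 hvw)
  exact h6 h5

theorem others (k : Fin 4) : ∃ i j l : Fin 4, i ≠ j ∧ i ≠ l ∧ j ≠ l ∧ i ≠ k ∧ j ≠ k ∧ l ≠ k := by
  revert k
  decide

theorem third (i j : Fin 4) (h : i ≠ j) : ∃ k : Fin 4, k ≠ i ∧ k ≠ j := by
  revert i j
  decide

theorem four_or_all (y1 y2 : ℂ → ℂ) (h1 : Differentiable ℂ y1) (h2 : Differentiable ℂ y2)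
    (h0 : ∀ z, y1 z ≠ 0 ∨ y2 z ≠ 0) (α β : Fin 4 → ℂ)
    (hne : ∀ i j, i ≠ j → α i * β j - α j * β i ≠ 0)
    (hg : ∀ i, ∃ r, ∀ z, α i * y1 z + β i * y2 z = 0 → z = r) (a b : ℂ)
    (hab : ∃ z, a * y1 z + b * y2 z ≠ 0) : ∃ r, ∀ z, a * y1 z + b * y2 z = 0 → z = r := by
  choose r hr using hg
  have hdg : ∀ i, Differentiable ℂ fun z => α i * y1 z + β i * y2 z :=
    fun i => (h1.const_mul _).add (h2.const_mul _)
  have hnf := fun i => normal_form (hdg i) (hr i)
  choose c m φ hc hφ hφ0 hp using hnf
  -- all exponents are equal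
  have hcls : ∀ i j k : Fin 4, i ≠ j → i ≠ k → j ≠ k → φ i = φ j ∨ φ i = φ k := by
    intro i j k hij hik hjk
    by_contra hcon
    obtain ⟨n1, n2⟩ := not_or.1 hcon
    have hs := borel_classes (Finset.univ : Finset (Fin 3))
      ![C (α j * β k - α k * β j) * (C (c i) * (X - C (r i)) ^ m i),
        C (α k * β i - α i * β k) * (C (c j) * (X - C (r j)) ^ m j),
        C (α i * β j - α j * β i) * (C (c k) * (X - C (r k)) ^ m k)]
      ![φ i, φ j, φ k] (by
        intro l _
        fin_cases l
        · exact hφ i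
        · exact hφ j
        · exact hφ k) (by
        intro l _
        fin_cases l
        · exact hφ0 i
        · exact hφ0 j
        · exact hφ0 k) (by
        intro z
        rw [Fin.sum_univ_three]
        have e1 := hp i z
        have e2 := hp j z
        have e3 := hp k z
        change (C (α j * β k - α k * β j) * (C (c i) * (X - C (r i)) ^ m i)).eval z *
            Complex.exp (φ i z) +
          (C (α k * β i - α i * β k) * (C (c j) * (X - C (r j)) ^ m j)).eval z *
            Complex.exp (φ j z) +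
          (C (α i * β j - α j * β i) * (C (c k) * (X - C (r k)) ^ m k)).eval z *
            Complex.exp (φ k z) = 0
        simp only [eval_mul, eval_C] at e1 e2 e3 ⊢
        linear_combination -(α j * β k - α k * β j) * e1 - (α k * β i - α i * β k) * e2 -
          (α i * β j - α j * β i) * e3)
      (φ i) {0} (by
        intro l
        fin_cases l
        · simp
        · simpa using fun h : φ j = φ i => n1 h.symm
        · simpa using fun h : φ k = φ i => n2 h.symm)
    rw [Finset.sum_singleton] at hs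
    have hs' : C (α j * β k - α k * β j) * (C (c i) * (X - C (r i)) ^ m i) = 0 := hs
    have hz : C (α j * β k - α k * β j) * (C (c i) * (X - C (r i)) ^ m i) ≠ 0 :=
      mul_ne_zero (C_ne_zero.2 (hne j k hjk))
        (mul_ne_zero (C_ne_zero.2 (hc i)) (pow_ne_zero _ (X_sub_C_ne_zero _)))
    exact hz hs'
  have heq : ∀ i j, φ i = φ j := by
    intro i j
    by_cases hij : i = j
    · rw [hij]
    obtain ⟨k, hk1, hk2⟩ := third i j hij
    rcases hcls i j k hij hk1.symm hk2.symm with h | h
    · exact h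
    · rcases hcls j i k (Ne.symm hij) hk2.symm hk1.symm with h' | h'
      · exact h'.symm
      · rw [h, h']
  -- the polynomials
  have hq : ∀ i z, α i * y1 z + β i * y2 z =
      c i * (z - r i) ^ m i * Complex.exp (φ 0 z) := by
    intro i z
    rw [hp i z, heq i 0]
    simp
  have hrel : ∀ i j k : Fin 4, ∀ z,
      (α j * β k - α k * β j) * c i * (z - r i) ^ m i +
      (α k * β i - α i * β k) * c j * (z - r j) ^ m j +
      (α i * β j - α j * β i) * c k * (z - r k) ^ m k = 0 := by
    intro i j k z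
    have e1 := hq i z
    have e2 := hq j z
    have e3 := hq k z
    have e4 : ((α j * β k - α k * β j) * c i * (z - r i) ^ m i +
      (α k * β i - α i * β k) * c j * (z - r j) ^ m j +
      (α i * β j - α j * β i) * c k * (z - r k) ^ m k) * Complex.exp (φ 0 z) = 0 := by
      linear_combination -(α j * β k - α k * β j) * e1 - (α k * β i - α i * β k) * e2 -
        (α i * β j - α j * β i) * e3
    exact (mul_eq_zero.1 e4).resolve_right (Complex.exp_ne_zero _)
  -- distinct roots
  have hrr : ∀ i j : Fin 4, i ≠ j → 0 < m i → 0 < m j → r i ≠ r j := by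
    intro i j hij hi hj he
    have e1 := hq i (r i)
    have e2 := hq j (r i)
    rw [sub_self, zero_pow hi.ne', mul_zero, zero_mul] at e1
    rw [he, sub_self, zero_pow hj.ne', mul_zero, zero_mul, ← he] at e2
    have e3 : (α i * β j - α j * β i) * y1 (r i) = 0 := by
      linear_combination β j * e1 - β i * e2
    have e4 : (α i * β j - α j * β i) * y2 (r i) = 0 := by
      linear_combination α i * e2 - α j * e1
    rcases h0 (r i) with h | h
    · exact h ((mul_eq_zero.1 e3).resolve_left (hne i j hij))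
    · exact h ((mul_eq_zero.1 e4).resolve_left (hne i j hij))
  -- the largest degree
  obtain ⟨k, -, hk⟩ := Finset.exists_max_image (Finset.univ : Finset (Fin 4)) m ⟨0, Finset.mem_univ _⟩
  have hk' : ∀ i, m i ≤ m k := fun i => hk i (Finset.mem_univ i)
  have hdeg : ∀ i, (C (c i) * (X - C (r i)) ^ m i).natDegree = m i := by
    intro i
    rw [natDegree_C_mul (hc i), natDegree_pow, natDegree_X_sub_C, mul_one]
  have hnot : ∀ i j : Fin 4, i ≠ j → i ≠ k → j ≠ k → ¬ (m i < m k ∧ m j < m k) := by
    rintro i j hij hik hjk ⟨hi, hj⟩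
    have e1 : C (α j * β k - α k * β j) * (C (c i) * (X - C (r i)) ^ m i) +
        C (α k * β i - α i * β k) * (C (c j) * (X - C (r j)) ^ m j) +
        C (α i * β j - α j * β i) * (C (c k) * (X - C (r k)) ^ m k) = 0 := by
      apply Polynomial.funext
      intro z
      have := hrel i j k z
      simp only [eval_add, eval_mul, eval_C, eval_pow, eval_sub, eval_X, eval_zero]
      linear_combination this
    have e2 := congrArg (fun p => p.coeff (m k)) e1
    simp only [coeff_add, coeff_C_mul, coeff_zero] at e2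
    have e3 : ((X - C (r i)) ^ m i : ℂ[X]).coeff (m k) = 0 := by
      apply coeff_eq_zero_of_natDegree_lt
      rw [natDegree_pow, natDegree_X_sub_C, mul_one]
      exact hi
    have e4 : ((X - C (r j)) ^ m j : ℂ[X]).coeff (m k) = 0 := by
      apply coeff_eq_zero_of_natDegree_lt
      rw [natDegree_pow, natDegree_X_sub_C, mul_one]
      exact hj
    have e5 : ((X - C (r k)) ^ m k : ℂ[X]).coeff (m k) = 1 := by
      have h3 : ((X - C (r k)) ^ m k : ℂ[X]).Monic := (monic_X_sub_C _).pow _
      have h4 := h3.coeff_natDegree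
      rwa [natDegree_pow, natDegree_X_sub_C, mul_one] at h4
    rw [e3, e4, e5] at e2
    simp only [mul_zero, mul_one, zero_add] at e2
    exact mul_ne_zero (hne i j hij) (hc k) e2
  have hd : m k ≤ 1 := by
    by_contra hcon
    have hd2 : 2 ≤ m k := by omega
    obtain ⟨i, j, l, hij, hil, hjl, hik, hjk, hlk⟩ := others k
    have key : ∀ x y : Fin 4, x ≠ y → x ≠ k → y ≠ k → m x = m k → m y = m k → False := by
      intro x y hxy hxk hyk ex ey
      have e1 := hrel x y k
      rw [ex, ey] at e1
      refine three_pow (u := r x) (v := r y) (w := r k) hd2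
        (B := (α k * β x - α x * β k) * c y) (mul_ne_zero (hne k x (Ne.symm hxk)) (hc y))
        (hrr x y hxy (by omega) (by omega)) (hrr k y (Ne.symm hyk) (by omega) (by omega)) e1
    have n1 := hnot i j hij hik hjk
    have n2 := hnot i l hil hik hlk
    have n3 := hnot j l hjl hjk hlk
    have b1 := hk' i
    have b2 := hk' j
    have b3 := hk' l
    by_cases ei : m i = m k
    · by_cases ej : m j = m k
      · exact key i j hij hik hjk ei ej
      · exact key i l hil hik hlk ei (by omega)
    · exact key j l hjl hjk hlk (by omega) (by omega)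
  -- conclusion
  have hall : ∀ i, m i ≤ 1 := fun i => (hk' i).trans hd
  have hlin : ∀ i, ∃ s t : ℂ, ∀ z, c i * (z - r i) ^ m i = s * z + t := by
    intro i
    rcases Nat.le_one_iff_eq_zero_or_eq_one.1 (hall i) with h | h
    · exact ⟨0, c i, fun z => by rw [h]; ring⟩
    · exact ⟨c i, -(c i * r i), fun z => by rw [h]; ring⟩
  obtain ⟨s0, t0, hs0⟩ := hlin 0
  obtain ⟨s1, t1, hs1⟩ := hlin 1
  have hD : α 0 * β 1 - α 1 * β 0 ≠ 0 := hne 0 1 (by decide)
  have hrep : ∃ s t : ℂ, ∀ z, (α 0 * β 1 - α 1 * β 0) * (a * y1 z + b * y2 z) =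
      (s * z + t) * Complex.exp (φ 0 z) := by
    refine ⟨a * (β 1 * s0 - β 0 * s1) + b * (α 0 * s1 - α 1 * s0),
      a * (β 1 * t0 - β 0 * t1) + b * (α 0 * t1 - α 1 * t0), fun z => ?_⟩
    have e0 := hq 0 z
    have e1 := hq 1 z
    rw [hs0 z] at e0
    rw [hs1 z] at e1
    linear_combination (a * β 1 - b * α 1) * e0 + (b * α 0 - a * β 0) * e1
  obtain ⟨s, t, hst⟩ := hrep
  have hzero : ∀ z, a * y1 z + b * y2 z = 0 → s * z + t = 0 := by
    intro z hz
    have e := hst z
    rw [hz, mul_zero] at e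
    exact (mul_eq_zero.1 e.symm).resolve_right (Complex.exp_ne_zero _)
  by_cases hex : ∃ z, a * y1 z + b * y2 z = 0
  · obtain ⟨z0, hz0⟩ := hex
    refine ⟨z0, fun z hz => ?_⟩
    by_contra hzz
    have e1 := hzero z hz
    have e2 := hzero z0 hz0
    have e3 : s * (z - z0) = 0 := by linear_combination e1 - e2
    have hs : s = 0 := (mul_eq_zero.1 e3).resolve_right (sub_ne_zero.2 hzz)
    have ht : t = 0 := by rw [hs, zero_mul, zero_add] at e1; exact e1
    obtain ⟨z1, hz1⟩ := hab
    have e4 := hst z1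
    rw [hs, ht, zero_mul, zero_add, zero_mul] at e4
    exact hz1 ((mul_eq_zero.1 e4).resolve_left hD)
  · push Not at hex
    exact ⟨0, fun z hz => absurd hz (hex z)⟩

end Pool.Agent.H17.RC
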