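import Mathlib
import Pool.Agent.H13.Borel.Borel
import Pool.Agent.H13.Borel.EntireLog
import Pool.Agent.H17.RC.Four

/-!
# Three solutions with at most one zero
-/

set_option autoImplicit false

namespace Pool.Agent.H17.RC

open Polynomial Pool.Agent.H13.Borel

/-- Three solutions with at most one zero are monomials `c (z - r)^m` times one unit. -/
theorem three_units (y1 y2 : ℂ → ℂ) (h1 : Differentiable ℂ y1) (h2 : Differentiable ℂ y2)
    (α β : Fin 3 → ℂ)
    (hne : ∀ i j, i ≠ j → α i * β j - α j * β i ≠ 0)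
    (hg : ∀ i, ∃ r, ∀ z, α i * y1 z + β i * y2 z = 0 → z = r) :
    ∃ (E : ℂ → ℂ) (c r : Fin 3 → ℂ) (m : Fin 3 → ℕ), (∀ z, E z ≠ 0) ∧ (∀ i, c i ≠ 0) ∧
      ∀ i z, α i * y1 z + β i * y2 z = c i * (z - r i) ^ m i * E z := by
  choose r hr using hg
  have hdg : ∀ i, Differentiable ℂ fun z => α i * y1 z + β i * y2 z :=
    fun i => (h1.const_mul _).add (h2.const_mul _)
  have hnf := fun i => normal_form (hdg i) (hr i)
  choose c m φ hc hφ hφ0 hp using hnf
  have hcls : ∀ i j k : Fin 3, i ≠ j → i ≠ k → j ≠ k → φ i = φ j ∨ φ i = φ k := by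
    intro i j k hij hik hjk
    by_contra hcon
    obtain ⟨n1, n2⟩ := not_or.1 hcon
    have hs := borel_classes (Finset.univ : Finset (Fin 3))
      ![C (α j * β k - α k * β j) * (C (c i) * (X - C (r i)) ^ m i),
        C (α k * β i - α i * β k) * (C (c j) * (X - C (r j)) ^ m j),
        C (α i * β j - α j * β i) * (C (c k) * (X - C (r k)) ^ m k)]
      ![φ i, φ j, φ k] (by
        intro l _
        fin_cases l
        · exact hφ i
        · exact hφ j
        · exact hφ k) (by
        intro l _
        fin_cases l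
        · exact hφ0 i
        · exact hφ0 j
        · exact hφ0 k) (by
        intro z
        rw [Fin.sum_univ_three]
        have e1 := hp i z
        have e2 := hp j z
        have e3 := hp k z
        change (C (α j * β k - α k * β j) * (C (c i) * (X - C (r i)) ^ m i)).eval z *
            Complex.exp (φ i z) +
          (C (α k * β i - α i * β k) * (C (c j) * (X - C (r j)) ^ m j)).eval z *
            Complex.exp (φ j z) +
          (C (α i * β j - α j * β i) * (C (c k) * (X - C (r k)) ^ m k)).eval z *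
            Complex.exp (φ k z) = 0
        simp only [eval_mul, eval_C] at e1 e2 e3 ⊢
        linear_combination -(α j * β k - α k * β j) * e1 - (α k * β i - α i * β k) * e2 -
          (α i * β j - α j * β i) * e3)
      (φ i) {0} (by
        intro l
        fin_cases l
        · simp
        · simpa using fun h : φ j = φ i => n1 h.symm
        · simpa using fun h : φ k = φ i => n2 h.symm)
    rw [Finset.sum_singleton] at hs
    have hs' : C (α j * β k - α k * β j) * (C (c i) * (X - C (r i)) ^ m i) = 0 := hs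
    have hz : C (α j * β k - α k * β j) * (C (c i) * (X - C (r i)) ^ m i) ≠ 0 :=
      mul_ne_zero (C_ne_zero.2 (hne j k hjk))
        (mul_ne_zero (C_ne_zero.2 (hc i)) (pow_ne_zero _ (X_sub_C_ne_zero _)))
    exact hz hs'
  have e01 : φ 1 = φ 0 ∧ φ 2 = φ 0 := by
    have a0 := hcls 0 1 2 (by decide) (by decide) (by decide)
    have a1 := hcls 1 0 2 (by decide) (by decide) (by decide)
    have a2 := hcls 2 0 1 (by decide) (by decide) (by decide)
    rcases a0 with a | a
    · refine ⟨a.symm, ?_⟩
      rcases a2 with b | b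
      · exact b
      · exact b.trans a.symm
    · refine ⟨?_, a.symm⟩
      rcases a1 with b | b
      · exact b
      · exact b.trans a.symm
  have heq : ∀ i, φ i = φ 0 := by
    intro i
    fin_cases i
    · rfl
    · exact e01.1
    · exact e01.2
  refine ⟨fun z => Complex.exp (φ 0 z), c, r, m, fun z => Complex.exp_ne_zero _, hc, ?_⟩
  intro i z
  rw [hp i z, heq i]
  simp

/-- Two monomials with a constant non-zero combination are linear. -/
theorem mono_le_one {c0 c1 r0 r1 d0 d1 c : ℂ} {m0 m1 : ℕ} (hc0 : c0 ≠ 0) (hc1 : c1 ≠ 0)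
    (hd0 : d0 ≠ 0) (hd1 : d1 ≠ 0) (hc : c ≠ 0)
    (h : ∀ z, d0 * (c1 * (z - r1) ^ m1) - d1 * (c0 * (z - r0) ^ m0) = c) : m0 ≤ 1 := by
  by_contra hcon
  have hm : 2 ≤ m0 := by omega
  have hder : ∀ z, d0 * (c1 * (m1 * (z - r1) ^ (m1 - 1))) -
      d1 * (c0 * (m0 * (z - r0) ^ (m0 - 1))) = 0 := by
    intro z
    have e1 : HasDerivAt (fun z : ℂ => d0 * (c1 * (z - r1) ^ m1) - d1 * (c0 * (z - r0) ^ m0))
        (d0 * (c1 * (m1 * (z - r1) ^ (m1 - 1) * 1)) -
          d1 * (c0 * (m0 * (z - r0) ^ (m0 - 1) * 1))) z :=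
      ((((hasDerivAt_id z).sub_const r1).pow m1).const_mul c1 |>.const_mul d0).sub
        ((((hasDerivAt_id z).sub_const r0).pow m0).const_mul c0 |>.const_mul d1)
    have e2 : HasDerivAt (fun z : ℂ => d0 * (c1 * (z - r1) ^ m1) - d1 * (c0 * (z - r0) ^ m0))
        0 z := by
      rw [show (fun z : ℂ => d0 * (c1 * (z - r1) ^ m1) - d1 * (c0 * (z - r0) ^ m0)) =
        fun _ => c from funext h]
      exact hasDerivAt_const z c
    have e3 := e1.unique e2
    simpa only [mul_one] using e3
  have a1 := hder r0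
  rw [sub_self, zero_pow (by omega), mul_zero, mul_zero, mul_zero, sub_zero] at a1
  have a2 : (m1 : ℂ) * (r0 - r1) ^ (m1 - 1) = 0 :=
    (mul_eq_zero.mp ((mul_eq_zero.mp a1).resolve_left hd0)).resolve_left hc1
  rcases mul_eq_zero.mp a2 with a3 | a3
  · have b := hder (r0 + 1)
    rw [a3, zero_mul, mul_zero, mul_zero, add_sub_cancel_left, one_pow, mul_one, zero_sub,
      neg_eq_zero] at b
    have b2 : (m0 : ℂ) = 0 :=
      (mul_eq_zero.mp ((mul_eq_zero.mp b).resolve_left hd1)).resolve_left hc0
    have b3 : m0 = 0 := by exact_mod_cast b2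
    omega
  · have hpos : m1 - 1 ≠ 0 := by
      intro h0
      rw [h0, pow_zero] at a3
      exact one_ne_zero a3
    have hr : r0 - r1 = 0 := pow_eq_zero_iff hpos |>.mp a3
    have b := h r0
    rw [hr, zero_pow (by omega), sub_self, zero_pow (by omega), mul_zero, mul_zero, mul_zero,
      mul_zero, sub_zero] at b
    exact hc b.symm

end Pool.Agent.H17.RC
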