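import Pool.Agent.H17.RC.Bern
import Pool.Agent.H17.RC.ThreeU

/-!
# Bernoulli fields: at most two leaves covered by `ℂ`, one of them `w = 0`
-/

set_option autoImplicit false

open MeasureTheory

namespace Pool.Agent.H17.RC

/-- **Bernoulli fields** `∂_z + (A w^(k+1) + B w) ∂_w`: all leaves are covered by `ℂ`, or only the
leaf `w = 0` and leaves on one curve `y w ^ k = x`. -/
theorem bern_two (k : ℕ) (hk : 1 ≤ k) (A B : ℂ → ℂ) (hA : Differentiable ℂ A)
    (hB : Differentiable ℂ B) :
    PlanePts (fun _ _ => 1) (Bern k A B) = Set.univ ∨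
      ∃ x y : ℂ → ℂ, Sol (fun z => k * A z) (fun z => k * B z) (fun _ => 0) x y ∧
        (∀ z, x z ≠ 0 ∨ y z ≠ 0) ∧
        PlanePts (fun _ _ => 1) (Bern k A B) ⊆ {p | p.2 = 0 ∨ y p.1 * p.2 ^ k = x p.1} := by
  have hA' : Differentiable ℂ (fun z => (k : ℂ) * A z) := (differentiable_const _).mul hA
  have hB' : Differentiable ℂ (fun z => (k : ℂ) * B z) := (differentiable_const _).mul hB
  obtain ⟨x1, y1, hx1, hy1, hdx1, hdy1⟩ := exists_linear (fun z => (k * B z) / 2) (fun _ => 0)
    (fun z => -(k * A z)) (fun z => -((k * B z) / 2)) (hB'.div_const 2) (differentiable_const _)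
    hA'.neg (hB'.div_const 2).neg 1 0
  obtain ⟨x2, y2, hx2, hy2, hdx2, hdy2⟩ := exists_linear (fun z => (k * B z) / 2) (fun _ => 0)
    (fun z => -(k * A z)) (fun z => -((k * B z) / 2)) (hB'.div_const 2) (differentiable_const _)
    hA'.neg (hB'.div_const 2).neg 0 1
  have s1 : Sol (fun z => k * A z) (fun z => k * B z) (fun _ => 0) x1 y1 := ⟨hdx1, hdy1⟩
  have s2 : Sol (fun z => k * A z) (fun z => k * B z) (fun _ => 0) x2 y2 := ⟨hdx2, hdy2⟩
  have hW : ∀ z, x1 z * y2 z - x2 z * y1 z = 1 := by
    intro z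
    rw [s1.wronskian s2 z, hx1, hy1, hx2, hy2]
    ring
  have hx20 : ∀ z, x2 z = 0 := by
    intro z
    refine linear_zero (k := fun z => (k * B z) / 2) (hB'.div_const 2) (fun t => ?_) hx2 z
    refine (hdx2 t).congr_deriv ?_
    ring
  have hy2ne : ∀ z, y2 z ≠ 0 := by
    intro z h
    have := hW z
    rw [h, hx20] at this
    simp at this
  have hne : ∀ a b : ℂ, (a ≠ 0 ∨ b ≠ 0) → ∀ z, a * x1 z + b * x2 z ≠ 0 ∨
      a * y1 z + b * y2 z ≠ 0 := by
    intro a b hab z
    by_contra hcon
    push Not at hcon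
    obtain ⟨h1, h2⟩ := hcon
    have ha : a = 0 := by
      have := hW z
      linear_combination y2 z * h1 - x2 z * h2 - a * this
    have hb : b = 0 := by
      have := hW z
      linear_combination x1 z * h2 - y1 z * h1 - b * this
    rcases hab with h | h
    · exact h ha
    · exact h hb
  set al : ℂ × ℂ → ℂ := fun p => p.2 ^ k * y2 p.1 - x2 p.1 with hal
  set be : ℂ × ℂ → ℂ := fun p => x1 p.1 - p.2 ^ k * y1 p.1 with hbe
  have hX : ∀ p, al p * x1 p.1 + be p * x2 p.1 = p.2 ^ k := by
    intro p
    have := hW p.1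
    simp only [hal, hbe]
    linear_combination p.2 ^ k * this
  have hY : ∀ p, al p * y1 p.1 + be p * y2 p.1 = 1 := by
    intro p
    have := hW p.1
    simp only [hal, hbe]
    linear_combination this
  have hab0 : ∀ p, al p ≠ 0 ∨ be p ≠ 0 := by
    intro p
    by_contra hcon
    push Not at hcon
    have := hY p
    rw [hcon.1, hcon.2] at this
    simp at this
  have halne : ∀ p : ℂ × ℂ, p.2 ≠ 0 → al p ≠ 0 := by
    intro p hp
    simp only [hal]
    rw [hx20, sub_zero]
    exact mul_ne_zero (pow_ne_zero _ hp) (hy2ne _)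
  have hfwd : ∀ p ∈ PlanePts (fun _ _ => 1) (Bern k A B),
      ∃ r, ∀ z, al p * y1 z + be p * y2 z = 0 → z = r := by
    intro p hp
    refine at_most_one hA' hB' (s1.comb s2 (al p) (be p)) (hne _ _ (hab0 p))
      (p := (p.1, p.2 ^ k)) ?_ (bern_down hk hp)
    show al p * x1 p.1 + be p * x2 p.1 = p.2 ^ k * (al p * y1 p.1 + be p * y2 p.1)
    rw [hX, hY, mul_one]
  have hbwd : ∀ p : ℂ × ℂ, (∃ r, ∀ z, al p * y1 z + be p * y2 z = 0 → z = r) →
      p ∈ PlanePts (fun _ _ => 1) (Bern k A B) := by
    intro p hp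
    apply bern_up hk hA hB
    refine plane_of_at_most_one (s1.comb s2 (al p) (be p)) (p := (p.1, p.2 ^ k)) ?_ ?_ hp
    · show al p * x1 p.1 + be p * x2 p.1 = p.2 ^ k * (al p * y1 p.1 + be p * y2 p.1)
      rw [hX, hY, mul_one]
    · show al p * y1 p.1 + be p * y2 p.1 ≠ 0
      rw [hY]
      exact one_ne_zero
  by_cases hall : PlanePts (fun _ _ => 1) (Bern k A B) = Set.univ
  · exact Or.inl hall
  refine Or.inr ?_
  -- two different leaves off `w = 0`: all
  have htwo : ∀ p q : ℂ × ℂ, p ∈ PlanePts (fun _ _ => 1) (Bern k A B) →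
      q ∈ PlanePts (fun _ _ => 1) (Bern k A B) → p.2 ≠ 0 → q.2 ≠ 0 →
      al p * be q - al q * be p = 0 := by
    intro p q hp hq hp0 hq0
    by_contra hD
    apply hall
    have hap := halne p hp0
    have haq := halne q hq0
    obtain ⟨E, c, r, m, hE, hc, hcE⟩ := three_units y1 y2 s1.diffy s2.diffy ![0, al p, al q]
      ![1, be p, be q] (by
        have sw : ∀ {a b c d : ℂ}, a * d - c * b ≠ 0 → c * b - a * d ≠ 0 := by
          intro a b c d h h'
          apply h
          linear_combination -h'
        have h01 : (0 : ℂ) * be p - al p * 1 ≠ 0 := by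
          rw [zero_mul, mul_one, zero_sub]
          exact neg_ne_zero.mpr hap
        have h02 : (0 : ℂ) * be q - al q * 1 ≠ 0 := by
          rw [zero_mul, mul_one, zero_sub]
          exact neg_ne_zero.mpr haq
        intro i j hij
        fin_cases i <;> fin_cases j <;>
          first
          | exact absurd rfl hij
          | exact h01
          | exact h02
          | exact hD
          | exact sw h01
          | exact sw h02
          | exact sw hD) (by
        intro i
        fin_cases i
        · refine ⟨0, fun z hz => absurd ?_ (hy2ne z)⟩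
          have hz' : (0 : ℂ) * y1 z + 1 * y2 z = 0 := hz
          linear_combination hz'
        · exact hfwd p hp
        · exact hfwd q hq)
    have e0 : ∀ z, (0 : ℂ) * y1 z + 1 * y2 z = c 0 * (z - r 0) ^ m 0 * E z := hcE 0
    have e1 : ∀ z, al p * y1 z + be p * y2 z = c 1 * (z - r 1) ^ m 1 * E z := hcE 1
    have e2 : ∀ z, al q * y1 z + be q * y2 z = c 2 * (z - r 2) ^ m 2 * E z := hcE 2
    have hm0 : m 0 = 0 := by
      by_contra h
      have h3 := e0 (r 0)
      rw [sub_self, zero_pow h, mul_zero, zero_mul] at h3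
      exact hy2ne (r 0) (by linear_combination h3)
    have e0' : ∀ z, y2 z = c 0 * E z := by
      intro z
      have h3 := e0 z
      rw [hm0, pow_zero, mul_one] at h3
      linear_combination h3
    have hDc : (al q * be p - al p * be q) * c 0 ≠ 0 :=
      mul_ne_zero (fun h => hD (by linear_combination -h)) (hc 0)
    have hm2 : m 2 ≤ 1 := by
      refine mono_le_one (c0 := c 2) (c1 := c 1) (r0 := r 2) (r1 := r 1) (d0 := al q) (d1 := al p)
        (hc 2) (hc 1) haq hap hDc (m1 := m 1) (fun z => ?_)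
      have h3 : (al q * (c 1 * (z - r 1) ^ m 1) - al p * (c 2 * (z - r 2) ^ m 2)) * E z =
          (al q * be p - al p * be q) * c 0 * E z := by
        linear_combination al p * e2 z - al q * e1 z + (al q * be p - al p * be q) * e0' z
      exact mul_right_cancel₀ (hE z) h3
    rw [Set.eq_univ_iff_forall]
    intro p'
    apply hbwd
    have h4 : ∀ z, al q * (al p' * y1 z + be p' * y2 z) =
        (al p' * c 2 * (z - r 2) ^ m 2 + (al q * be p' - al p' * be q) * c 0) * E z := by
      intro z
      linear_combination al p' * e2 z + (al q * be p' - al p' * be q) * e0' z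
    have h5 : ∀ z, al p' * y1 z + be p' * y2 z = 0 →
        al p' * c 2 * (z - r 2) ^ m 2 + (al q * be p' - al p' * be q) * c 0 = 0 := by
      intro z hz
      have h6 := h4 z
      rw [hz, mul_zero] at h6
      exact (mul_eq_zero.mp h6.symm).resolve_right (hE z)
    have h7 : al p' * c 2 * (p'.1 - r 2) ^ m 2 + (al q * be p' - al p' * be q) * c 0 ≠ 0 := by
      intro h
      have h6 := h4 p'.1
      rw [hY, h, zero_mul, mul_one] at h6
      exact haq h6
    interval_cases hm : m 2
    · refine ⟨0, fun z hz => absurd ?_ h7⟩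
      have h8 := h5 z hz
      rw [pow_zero] at h8 ⊢
      exact h8
    · by_cases ha : al p' = 0
      · refine ⟨0, fun z hz => absurd ?_ h7⟩
        have h8 := h5 z hz
        rw [ha] at h8 ⊢
        linear_combination h8
      · refine ⟨r 2 - (al q * be p' - al p' * be q) * c 0 / (al p' * c 2), fun z hz => ?_⟩
        have h8 := h5 z hz
        have h9 : al p' * c 2 ≠ 0 := mul_ne_zero ha (hc 2)
        rw [pow_one] at h8
        refine mul_left_cancel₀ h9 ?_
        rw [mul_sub, mul_div_cancel₀ _ h9]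
        linear_combination h8
  by_cases hex : ∃ q ∈ PlanePts (fun _ _ => 1) (Bern k A B), q.2 ≠ 0
  · obtain ⟨q, hq, hq0⟩ := hex
    refine ⟨fun z => al q * x1 z + be q * x2 z, fun z => al q * y1 z + be q * y2 z,
      s1.comb s2 _ _, hne _ _ (hab0 _), fun p hp => ?_⟩
    by_cases hp0 : p.2 = 0
    · exact Or.inl hp0
    · right
      have h0 := htwo p q hp hq hp0 hq0
      show (al q * y1 p.1 + be q * y2 p.1) * p.2 ^ k = al q * x1 p.1 + be q * x2 p.1
      simp only [hal, hbe] at h0 ⊢
      linear_combination h0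
  · push Not at hex
    exact ⟨x1, y1, s1, fun z => by simpa using hne 1 0 (Or.inl one_ne_zero) z,
      fun p hp => Or.inl (hex p hp)⟩

end Pool.Agent.H17.RC
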