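import Mathlib

/-!
# Points on leaves covered by `ℂ` and points on leaves covered by the disc
-/

set_option autoImplicit false

namespace Pool.Agent.H17.RC

/-- The points `p` of `ℂ²` through which passes a non-constant entire curve `t ↦ (f t, g t)` which
avoids the zeros of the vector field `P ∂_z + Q ∂_w` and is tangent to it everywhere. -/
def PlanePts (P Q : ℂ → ℂ → ℂ) : Set (ℂ × ℂ) :=
  {p | ∃ f g : ℂ → ℂ, Differentiable ℂ f ∧ Differentiable ℂ g ∧ f 0 = p.1 ∧ g 0 = p.2 ∧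
    (∃ t, f t ≠ f 0 ∨ g t ≠ g 0) ∧ ∀ t, (P (f t) (g t) ≠ 0 ∨ Q (f t) (g t) ≠ 0) ∧
      ∃ l, deriv f t = l * P (f t) (g t) ∧ deriv g t = l * Q (f t) (g t)}

/-- The other points outside the zero set of the vector field. -/
def DiscPts (P Q : ℂ → ℂ → ℂ) : Set (ℂ × ℂ) :=
  {p | P p.1 p.2 ≠ 0 ∨ Q p.1 p.2 ≠ 0} \ PlanePts P Q

/-- `A w² + B w + C`. -/
def Ric (A B C : ℂ → ℂ) (z w : ℂ) : ℂ := A z * w ^ 2 + B z * w + C z

end Pool.Agent.H17.RC
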