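import Pool.Agent.H17.RC.Main

/-!
# Riccati fields: three leaves covered by `ℂ` do occur
-/

set_option autoImplicit false

namespace Pool.Agent.H17.RC

theorem ex_sol (a b : ℂ) : Sol (fun z => z ^ 2 - 1) (fun z => -2 * z) (fun _ => 1)
    (fun z => a + b * z) (fun z => a * z + b * (1 + z ^ 2)) := by
  constructor
  · intro z
    have h : HasDerivAt (fun z : ℂ => a + b * z) b z := by
      simpa using ((hasDerivAt_id z).const_mul b).const_add a
    refine h.congr_deriv ?_
    ring
  · intro z
    have h1 : HasDerivAt (fun z : ℂ => a * z) a z := by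
      simpa using (hasDerivAt_id z).const_mul a
    have h2 : HasDerivAt (fun z : ℂ => b * (1 + z ^ 2)) (b * (2 * z)) z := by
      simpa using (((hasDerivAt_id z).pow 2).const_add 1).const_mul b
    have h : HasDerivAt (fun z : ℂ => a * z + b * (1 + z ^ 2)) (a + b * (2 * z)) z := h1.add h2
    refine h.congr_deriv ?_
    ring

/-- For the field `∂_z + ((z² - 1) w² - 2 z w + 1) ∂_w` the points on leaves covered by `ℂ` are those
of three curves. -/
theorem example_three :
    PlanePts (fun _ _ => 1) (Ric (fun z => z ^ 2 - 1) (fun z => -2 * z) (fun _ => 1)) =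
      {p | p.1 * p.2 = 1 ∨ (p.1 + 1) ^ 2 * p.2 = p.1 + 2 ∨ (p.1 - 1) ^ 2 * p.2 = p.1 - 2} := by
  ext p
  obtain ⟨a, ha⟩ : ∃ a, a = p.2 * (1 + p.1 ^ 2) - p.1 := ⟨_, rfl⟩
  obtain ⟨b, hb⟩ : ∃ b, b = 1 - p.2 * p.1 := ⟨_, rfl⟩
  have hx : a + b * p.1 = p.2 := by rw [ha, hb]; ring
  have hy : a * p.1 + b * (1 + p.1 ^ 2) = 1 := by rw [ha, hb]; ring
  have hxy : ∀ z, a + b * z ≠ 0 ∨ a * z + b * (1 + z ^ 2) ≠ 0 := by
    intro z
    by_contra hcon
    push Not at hcon
    obtain ⟨h1, h2⟩ := hcon
    have hb0 : b = 0 := by linear_combination h2 - z * h1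
    have ha0 : a = 0 := by rw [hb0] at h1; linear_combination h1
    rw [ha0, hb0] at hy
    simp at hy
  have hA : Differentiable ℂ (fun z : ℂ => z ^ 2 - 1) := by fun_prop
  have hB : Differentiable ℂ (fun z : ℂ => -2 * z) := by fun_prop
  have h1 : p ∈ PlanePts (fun _ _ => 1) (Ric (fun z => z ^ 2 - 1) (fun z => -2 * z) (fun _ => 1)) ↔
      ∃ r, ∀ z, a * z + b * (1 + z ^ 2) = 0 → z = r := by
    constructor
    · intro hp
      exact at_most_one hA hB (ex_sol a b) hxy (p := p)
        (by show a + b * p.1 = p.2 * (a * p.1 + b * (1 + p.1 ^ 2)); rw [hx, hy, mul_one]) hp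
    · intro hr
      exact plane_of_at_most_one (ex_sol a b) (p := p)
        (by show a + b * p.1 = p.2 * (a * p.1 + b * (1 + p.1 ^ 2)); rw [hx, hy, mul_one])
        (by show a * p.1 + b * (1 + p.1 ^ 2) ≠ 0; rw [hy]; exact one_ne_zero) hr
  have h2 : (∃ r, ∀ z, a * z + b * (1 + z ^ 2) = 0 → z = r) ↔ (b = 0 ∨ a = 2 * b ∨ a = -2 * b) := by
    constructor
    · rintro ⟨r, hr⟩
      by_contra hcon
      push Not at hcon
      obtain ⟨hb0, h3, h4⟩ := hcon
      obtain ⟨s, hs⟩ := IsAlgClosed.exists_pow_nat_eq (a ^ 2 - 4 * b ^ 2) (n := 2) (by norm_num)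
      have e1 : a * ((-a + s) / (2 * b)) + b * (1 + ((-a + s) / (2 * b)) ^ 2) = 0 := by
        field_simp
        linear_combination hs
      have e2 : a * ((-a - s) / (2 * b)) + b * (1 + ((-a - s) / (2 * b)) ^ 2) = 0 := by
        field_simp
        linear_combination hs
      have e3 := (hr _ e1).trans (hr _ e2).symm
      have e4 : s = 0 := by
        have hb2 : (2 * b : ℂ) ≠ 0 := mul_ne_zero two_ne_zero hb0
        rw [div_left_inj' hb2] at e3
        linear_combination (1 / 2 : ℂ) * e3
      have e5 : (a - 2 * b) * (a - -2 * b) = 0 := by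
        rw [e4] at hs
        linear_combination -hs
      rcases mul_eq_zero.mp e5 with h | h
      · exact h3 (sub_eq_zero.mp h)
      · exact h4 (sub_eq_zero.mp h)
    · rintro (h | h | h)
      · refine ⟨0, fun z hz => ?_⟩
        rw [h] at hz hy
        have ha0 : a ≠ 0 := by
          rintro rfl
          simp at hy
        have : a * z = 0 := by linear_combination hz
        exact (mul_eq_zero.mp this).resolve_left ha0
      · have hb0 : b ≠ 0 := by
          rintro rfl
          rw [h] at hy
          simp at hy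
        refine ⟨-1, fun z hz => ?_⟩
        rw [h] at hz
        have : b * (z + 1) ^ 2 = 0 := by linear_combination hz
        have h5 := pow_eq_zero_iff (two_ne_zero) |>.mp ((mul_eq_zero.mp this).resolve_left hb0)
        linear_combination h5
      · have hb0 : b ≠ 0 := by
          rintro rfl
          rw [h] at hy
          simp at hy
        refine ⟨1, fun z hz => ?_⟩
        rw [h] at hz
        have : b * (z - 1) ^ 2 = 0 := by linear_combination hz
        have h5 := pow_eq_zero_iff (two_ne_zero) |>.mp ((mul_eq_zero.mp this).resolve_left hb0)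
        linear_combination h5
  rw [h1, h2, ha, hb]
  change _ ↔ (p.1 * p.2 = 1 ∨ (p.1 + 1) ^ 2 * p.2 = p.1 + 2 ∨ (p.1 - 1) ^ 2 * p.2 = p.1 - 2)
  constructor
  · rintro (h | h | h)
    · left; linear_combination -h
    · right; left; linear_combination h
    · right; right; linear_combination h
  · rintro (h | h | h)
    · left; linear_combination -h
    · right; left; linear_combination h
    · right; right; linear_combination h

end Pool.Agent.H17.RC
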