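import Mathlib

/-!
# The function `A e^w + B + C e^(-w)`
-/

set_option autoImplicit false

namespace Pool.Agent.H17.RC

/-- `A e^w + B + C e^(-w)`. -/
noncomputable def Expo (A B C : ℂ → ℂ) (z w : ℂ) : ℂ :=
  A z * Complex.exp w + B z + C z * Complex.exp (-w)

end Pool.Agent.H17.RC
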