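import Pool.Agent.H17.RC.Main
import Pool.Agent.H17.RC.ExpoDefs

/-!
# Fields `∂_z + (A e^w + B + C e^(-w)) ∂_w`
-/

set_option autoImplicit false

open MeasureTheory

namespace Pool.Agent.H17.RC

variable {A B C x y : ℂ → ℂ}

/-- A point of a leaf covered by `ℂ`: numerator and denominator have together at most one zero. -/
lemma expo_at_most_one (hA : Differentiable ℂ A) (hB : Differentiable ℂ B) (h : Sol A B C x y)
    (hxy : ∀ z, x z ≠ 0 ∨ y z ≠ 0) {p : ℂ × ℂ} (hp : x p.1 = Complex.exp p.2 * y p.1)
    (hpp : p ∈ PlanePts (fun _ _ => 1) (Expo A B C)) : ∃ r, ∀ z, x z * y z = 0 → z = r := by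
  obtain ⟨f, g, hf, hg, hf0, hg0, hnc, ht⟩ := hpp
  have hdg : ∀ t, HasDerivAt g (deriv f t * Expo A B C (f t) (g t)) t := by
    intro t
    obtain ⟨-, l, h1, h2⟩ := ht t
    rw [mul_one] at h1
    rw [h1]
    have h3 := (hg t).hasDerivAt
    rw [h2] at h3
    exact h3
  have hd : ∀ t, HasDerivAt (fun t => Complex.exp (g t))
      (deriv f t * (A (f t) * Complex.exp (g t) ^ 2 + B (f t) * Complex.exp (g t) + C (f t))) t := by
    intro t
    have h1 := (hdg t).cexp
    have h2 : Complex.exp (g t) * (deriv f t * Expo A B C (f t) (g t)) =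
        deriv f t * (A (f t) * Complex.exp (g t) ^ 2 + B (f t) * Complex.exp (g t) + C (f t)) := by
      have h3 : Complex.exp (g t) * Complex.exp (-g t) = 1 := by
        rw [← Complex.exp_add, add_neg_cancel, Complex.exp_zero]
      simp only [Expo]
      linear_combination deriv f t * C (f t) * h3
    rwa [h2] at h1
  have hst := h.stay hA hB hf hd (by rw [hf0, hg0]; exact hp)
  have hy : ∀ t, x (f t) * y (f t) ≠ 0 := by
    intro t h0
    have h1 := hst t
    have he := Complex.exp_ne_zero (g t)
    rcases mul_eq_zero.mp h0 with h2 | h2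
    · rw [h2] at h1
      have h3 := (mul_eq_zero.mp h1.symm).resolve_left he
      rcases hxy (f t) with h4 | h4
      · exact h4 h2
      · exact h4 h3
    · rw [h2, mul_zero] at h1
      rcases hxy (f t) with h4 | h4
      · exact h4 h1
      · exact h4 h2
  have hfc : ∃ t, f t ≠ f 0 := by
    by_contra hcon
    push Not at hcon
    have hdf : ∀ t, deriv f t = 0 := by
      intro t
      rw [show f = fun _ => f 0 from funext hcon]
      simp
    have hgc : ∀ t, g t = g 0 := by
      intro t
      apply is_const_of_deriv_eq_zero (𝕜 := ℂ) hg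
      intro s
      rw [(hdg s).deriv, hdf, zero_mul]
    obtain ⟨t, h1 | h1⟩ := hnc
    · exact h1 (hcon t)
    · exact h1 (hgc t)
  obtain ⟨t, ht1⟩ := hfc
  by_cases hz : ∃ r, x r * y r = 0
  · obtain ⟨r, hr⟩ := hz
    refine ⟨r, fun z hz => ?_⟩
    by_contra hne
    exact ht1 (picard hf hne (fun s hs => hy s (by rw [hs]; exact hz))
      (fun s hs => hy s (by rw [hs]; exact hr)) t)
  · push Not at hz
    exact ⟨0, fun z h0 => absurd h0 (hz z)⟩

/-- If numerator and denominator have together at most one zero, the leaf is covered by `ℂ`. -/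
lemma expo_plane (h : Sol A B C x y) {p : ℂ × ℂ} (hp : x p.1 = Complex.exp p.2 * y p.1)
    (hy0 : y p.1 ≠ 0) (h1 : ∃ r, ∀ z, x z * y z = 0 → z = r) :
    p ∈ PlanePts (fun _ _ => 1) (Expo A B C) := by
  obtain ⟨r, hr⟩ := h1
  have hx0 : x p.1 ≠ 0 := by
    rw [hp]
    exact mul_ne_zero (Complex.exp_ne_zero _) hy0
  have key : ∃ f : ℂ → ℂ, Differentiable ℂ f ∧ f 0 = p.1 ∧ (∃ t, f t ≠ f 0) ∧
      ∀ t, x (f t) * y (f t) ≠ 0 := by
    by_cases hyr : x r * y r = 0
    · have hne : p.1 - r ≠ 0 := by
        intro h0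
        apply mul_ne_zero hx0 hy0
        rw [sub_eq_zero.mp h0]
        exact hyr
      refine ⟨fun t => r + (p.1 - r) * Complex.exp t, ?_, ?_, ?_, ?_⟩
      · exact (differentiable_const _).add ((differentiable_const _).mul Complex.differentiable_exp)
      · simp
      · refine ⟨(Real.pi : ℂ) * Complex.I, ?_⟩
        intro h0
        simp only [Complex.exp_pi_mul_I, Complex.exp_zero] at h0
        apply hne
        linear_combination -(1 / 2 : ℂ) * h0
      · intro t h0
        have h2 := hr _ h0
        have h3 : (p.1 - r) * Complex.exp t = 0 := by linear_combination h2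
        exact (mul_ne_zero hne (Complex.exp_ne_zero t)) h3
    · refine ⟨fun t => p.1 + t, ?_, ?_, ?_, ?_⟩
      · exact (differentiable_const _).add differentiable_id
      · simp
      · exact ⟨1, by simp⟩
      · intro t h0
        apply hyr
        rw [← hr _ h0]
        exact h0
  obtain ⟨f, hf, hf0, hfc, hfxy⟩ := key
  have hfx : ∀ t, x (f t) ≠ 0 := fun t => left_ne_zero_of_mul (hfxy t)
  have hfy : ∀ t, y (f t) ≠ 0 := fun t => right_ne_zero_of_mul (hfxy t)
  have hd : ∀ t, HasDerivAt (fun t => x (f t) / y (f t))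
      ((A (f t) * (x (f t) / y (f t)) ^ 2 + B (f t) * (x (f t) / y (f t)) + C (f t)) *
        deriv f t) t := fun t => (h.riccati (f t) (hfy t)).comp t (hf t).hasDerivAt
  obtain ⟨g, hg, hge⟩ := Pool.Agent.H13.Borel.exists_entire_log
    (g := fun t => x (f t) / y (f t)) (fun t => (hd t).differentiableAt)
    (fun t => div_ne_zero (hfx t) (hfy t))
  -- normalise the value at `0`
  have hc : Complex.exp (p.2 - g 0) = 1 := by
    have h2 := hge 0
    simp only [hf0] at h2
    rw [hp, mul_div_cancel_right₀ _ hy0] at h2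
    rw [Complex.exp_sub, h2]
    exact div_self (Complex.exp_ne_zero _)
  have hGe : ∀ t, x (f t) / y (f t) = Complex.exp (g t + (p.2 - g 0)) := by
    intro t
    rw [Complex.exp_add, hc, mul_one]
    exact hge t
  have hG : ∀ t, HasDerivAt (fun t => g t + (p.2 - g 0)) (deriv g t) t := fun t =>
    ((hg t).hasDerivAt).add_const _
  refine ⟨f, fun t => g t + (p.2 - g 0), hf, fun t => (hG t).differentiableAt, hf0, by simp, ?_,
    ?_⟩
  · obtain ⟨t, ht⟩ := hfc
    exact ⟨t, Or.inl ht⟩
  · intro t
    refine ⟨Or.inl one_ne_zero, deriv f t, (mul_one _).symm, ?_⟩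
    rw [(hG t).deriv]
    have h2 : HasDerivAt (fun t => x (f t) / y (f t))
        (Complex.exp (g t + (p.2 - g 0)) * deriv g t) t := by
      have h3 := (hG t).cexp
      have h4 : (fun t => x (f t) / y (f t)) = fun t => Complex.exp (g t + (p.2 - g 0)) :=
        funext hGe
      rw [h4]
      exact h3
    have h5 := h2.unique (hd t)
    rw [hGe t] at h5
    have h6 : Complex.exp (g t + (p.2 - g 0)) * Complex.exp (-(g t + (p.2 - g 0))) = 1 := by
      rw [← Complex.exp_add, add_neg_cancel, Complex.exp_zero]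
    simp only [Expo]
    have h7 := congrArg (fun a => Complex.exp (-(g t + (p.2 - g 0))) * a) h5
    beta_reduce at h7
    linear_combination h7 - deriv g t * h6 + deriv f t *
      (A (f t) * Complex.exp (g t + (p.2 - g 0)) + B (f t)) * h6

end Pool.Agent.H17.RC
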