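import Pool.Agent.H17.RC.Expo
import Pool.Agent.H17.RC.ThreeU

/-!
# Fields `∂_z + (A e^w + B + C e^(-w)) ∂_w`: all leaves or at most two up to translation
-/

set_option autoImplicit false

open MeasureTheory

namespace Pool.Agent.H17.RC

/-- A zero-free combination of two monomials is constant. -/
lemma mono_const {a b r s : ℂ} {m n : ℕ}
    (h : ∀ z : ℂ, a * (z - r) ^ m - b * (z - s) ^ n ≠ 0) :
    ∀ z : ℂ, a * (z - r) ^ m - b * (z - s) ^ n = a * (0 - r) ^ m - b * (0 - s) ^ n := by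
  have hev : ∀ z : ℂ, (Polynomial.C a * (Polynomial.X - Polynomial.C r) ^ m -
      Polynomial.C b * (Polynomial.X - Polynomial.C s) ^ n).eval z =
      a * (z - r) ^ m - b * (z - s) ^ n := by
    intro z
    simp
  have hdeg : (Polynomial.C a * (Polynomial.X - Polynomial.C r) ^ m -
      Polynomial.C b * (Polynomial.X - Polynomial.C s) ^ n).degree = 0 := by
    by_contra hd
    obtain ⟨z, hz⟩ := IsAlgClosed.exists_root _ hd
    apply h z
    rw [← hev z]
    exact hz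
  intro z
  rw [← hev z, ← hev 0]
  rw [Polynomial.eq_C_of_degree_le_zero (le_of_eq hdeg)]
  simp

lemma expo_pair {x1 y1 x2 y2 F E : ℂ → ℂ} {α0 β0 α1 β1 d0 d1 c0 c1 r0 r1 κ : ℂ} {m0 m1 : ℕ}
    (hκ : κ ≠ 0) (hW : ∀ z, x1 z * y2 z - x2 z * y1 z = κ) (hD : α0 * β1 - α1 * β0 ≠ 0)
    (hE : ∀ z, E z ≠ 0) (hF : ∀ z, F z ≠ 0) (hd0 : d0 ≠ 0) (hd1 : d1 ≠ 0) (hc0 : c0 ≠ 0)
    (hc1 : c1 ≠ 0) (hx0 : ∀ z, α0 * x1 z + β0 * x2 z = d0 * F z)
    (hx1 : ∀ z, α1 * x1 z + β1 * x2 z = d1 * F z)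
    (hy0 : ∀ z, α0 * y1 z + β0 * y2 z = c0 * (z - r0) ^ m0 * E z)
    (hy1 : ∀ z, α1 * y1 z + β1 * y2 z = c1 * (z - r1) ^ m1 * E z)
    (a b : ℂ) (hab : ∃ z, (a * x1 z + b * x2 z) * (a * y1 z + b * y2 z) ≠ 0) :
    ∃ r, ∀ z, (a * x1 z + b * x2 z) * (a * y1 z + b * y2 z) = 0 → z = r := by
  -- the determinant
  have hT : ∀ z, (d0 * c1 * (z - r1) ^ m1 - d1 * c0 * (z - r0) ^ m0) * (F z * E z) =
      (α0 * β1 - α1 * β0) * κ := by
    intro z
    rw [← hW z]
    have e1 := hx0 z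
    have e2 := hx1 z
    have e3 := hy0 z
    have e4 := hy1 z
    calc (d0 * c1 * (z - r1) ^ m1 - d1 * c0 * (z - r0) ^ m0) * (F z * E z) =
        (d0 * F z) * (c1 * (z - r1) ^ m1 * E z) - (d1 * F z) * (c0 * (z - r0) ^ m0 * E z) := by
          ring
      _ = (α0 * x1 z + β0 * x2 z) * (α1 * y1 z + β1 * y2 z) -
          (α1 * x1 z + β1 * x2 z) * (α0 * y1 z + β0 * y2 z) := by rw [e1, e2, e3, e4]
      _ = _ := by ring
  have hT0 : ∀ z, d0 * c1 * (z - r1) ^ m1 - d1 * c0 * (z - r0) ^ m0 ≠ 0 := by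
    intro z h0
    have := hT z
    rw [h0, zero_mul] at this
    exact mul_ne_zero hD hκ this.symm
  have hTc := mono_const hT0
  have hm0 : m0 ≤ 1 := mono_le_one (c0 := c0) (c1 := c1) (r0 := r0) (r1 := r1) (d0 := d0)
    (d1 := d1) (m0 := m0) (m1 := m1) hc0 hc1 hd0 hd1 (hT0 0) (fun z => by
      rw [← hTc z]; ring)
  have hm1 : m1 ≤ 1 := mono_le_one (c0 := c1) (c1 := c0) (r0 := r1) (r1 := r0) (d0 := d1)
    (d1 := d0) (m0 := m1) (m1 := m0) hc1 hc0 hd1 hd0 (neg_ne_zero.mpr (hT0 0)) (fun z => by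
      rw [← hTc z]; ring)
  have hlin : ∀ (c r : ℂ) (m : ℕ), m ≤ 1 → ∃ s t : ℂ, ∀ z, c * (z - r) ^ m = s * z + t := by
    intro c r m hm
    rcases Nat.le_one_iff_eq_zero_or_eq_one.1 hm with h | h
    · exact ⟨0, c, fun z => by rw [h]; ring⟩
    · exact ⟨c, -(c * r), fun z => by rw [h]; ring⟩
  obtain ⟨s0, t0, hs0⟩ := hlin c0 r0 m0 hm0
  obtain ⟨s1, t1, hs1⟩ := hlin c1 r1 m1 hm1
  have hX : ∀ z, (α0 * β1 - α1 * β0) * (a * x1 z + b * x2 z) =
      ((a * β1 - b * α1) * d0 + (b * α0 - a * β0) * d1) * F z := by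
    intro z
    linear_combination (a * β1 - b * α1) * hx0 z + (b * α0 - a * β0) * hx1 z
  have hY : ∀ z, (α0 * β1 - α1 * β0) * (a * y1 z + b * y2 z) =
      (((a * β1 - b * α1) * s0 + (b * α0 - a * β0) * s1) * z +
        ((a * β1 - b * α1) * t0 + (b * α0 - a * β0) * t1)) * E z := by
    intro z
    have e3 := hy0 z
    have e4 := hy1 z
    rw [hs0] at e3
    rw [hs1] at e4
    linear_combination (a * β1 - b * α1) * e3 + (b * α0 - a * β0) * e4
  obtain ⟨z1, hz1⟩ := hab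
  have hx1ne := left_ne_zero_of_mul hz1
  have hy1ne := right_ne_zero_of_mul hz1
  have hcx : (a * β1 - b * α1) * d0 + (b * α0 - a * β0) * d1 ≠ 0 := by
    intro h
    have := hX z1
    rw [h, zero_mul] at this
    exact (mul_ne_zero hD hx1ne) this
  set s := (a * β1 - b * α1) * s0 + (b * α0 - a * β0) * s1 with hs
  set t := (a * β1 - b * α1) * t0 + (b * α0 - a * β0) * t1 with ht
  have hzero : ∀ z, (a * x1 z + b * x2 z) * (a * y1 z + b * y2 z) = 0 → s * z + t = 0 := by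
    intro z hz
    rcases mul_eq_zero.mp hz with h | h
    · have := hX z
      rw [h, mul_zero] at this
      exact absurd this.symm (mul_ne_zero hcx (hF z))
    · have := hY z
      rw [h, mul_zero] at this
      exact (mul_eq_zero.mp this.symm).resolve_right (hE z)
  by_cases hs0' : s = 0
  · refine ⟨0, fun z hz => ?_⟩
    exfalso
    have h1 := hzero z hz
    rw [hs0', zero_mul, zero_add] at h1
    have := hY z1
    rw [hs0', h1, zero_mul, zero_add, zero_mul] at this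
    exact (mul_ne_zero hD hy1ne) this
  · refine ⟨-t / s, fun z hz => ?_⟩
    rw [eq_div_iff hs0']
    linear_combination hzero z hz

/-- Three leaves covered by `ℂ`: all are. -/
lemma expo_three {x1 y1 x2 y2 : ℂ → ℂ} (hx1 : Differentiable ℂ x1) (hy1 : Differentiable ℂ y1)
    (hx2 : Differentiable ℂ x2) (hy2 : Differentiable ℂ y2)
    (hW : ∀ z, x1 z * y2 z - x2 z * y1 z = 1) (α β : Fin 3 → ℂ)
    (hne : ∀ i j, i ≠ j → α i * β j - α j * β i ≠ 0)
    (hg : ∀ i, ∃ r, ∀ z, (α i * x1 z + β i * x2 z) * (α i * y1 z + β i * y2 z) = 0 → z = r)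
    (a b : ℂ) (hab : ∃ z, (a * x1 z + b * x2 z) * (a * y1 z + b * y2 z) ≠ 0) :
    ∃ r, ∀ z, (a * x1 z + b * x2 z) * (a * y1 z + b * y2 z) = 0 → z = r := by
  obtain ⟨E, c, r, m, hE, hc, hyE⟩ := three_units y1 y2 hy1 hy2 α β hne (fun i => by
    obtain ⟨r, hr⟩ := hg i
    exact ⟨r, fun z hz => hr z (by rw [hz, mul_zero])⟩)
  obtain ⟨F, d, ρ, n, hF, hd, hxF⟩ := three_units x1 x2 hx1 hx2 α β hne (fun i => by
    obtain ⟨r, hr⟩ := hg i
    exact ⟨r, fun z hz => hr z (by rw [hz, zero_mul])⟩)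
  have hnc : ∀ i z, ¬ (α i * x1 z + β i * x2 z = 0 ∧ α i * y1 z + β i * y2 z = 0) := by
    rintro i z ⟨e1, e2⟩
    have hw := hW z
    have ha : α i = 0 := by linear_combination y2 z * e1 - x2 z * e2 - α i * hw
    have hb : β i = 0 := by linear_combination x1 z * e2 - y1 z * e1 - β i * hw
    obtain ⟨j, hj⟩ : ∃ j : Fin 3, i ≠ j := ⟨i + 1, by fin_cases i <;> decide⟩
    apply hne i j hj
    rw [ha, hb]
    ring
  have hmn : ∀ i, m i = 0 ∨ n i = 0 := by
    intro i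
    by_contra hcon
    push Not at hcon
    obtain ⟨hm, hn⟩ := hcon
    obtain ⟨s, hs⟩ := hg i
    have hzy : α i * y1 (r i) + β i * y2 (r i) = 0 := by
      rw [hyE, sub_self, zero_pow hm, mul_zero, zero_mul]
    have hzx : α i * x1 (ρ i) + β i * x2 (ρ i) = 0 := by
      rw [hxF, sub_self, zero_pow hn, mul_zero, zero_mul]
    have e1 := hs _ (by rw [hzy, mul_zero])
    have e2 := hs _ (by rw [hzx, zero_mul])
    rw [e1] at hzy
    rw [e2] at hzx
    exact hnc i s ⟨hzx, hzy⟩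
  have caseN : ∀ i j : Fin 3, i ≠ j → n i = 0 → n j = 0 →
      ∃ r, ∀ z, (a * x1 z + b * x2 z) * (a * y1 z + b * y2 z) = 0 → z = r := by
    intro i j hij hi hj
    exact expo_pair (F := F) (E := E) one_ne_zero hW (hne i j hij) hE hF (hd i) (hd j) (hc i)
      (hc j) (fun z => by rw [hxF, hi]; ring) (fun z => by rw [hxF, hj]; ring) (hyE i) (hyE j)
      a b hab
  have caseM : ∀ i j : Fin 3, i ≠ j → m i = 0 → m j = 0 →
      ∃ r, ∀ z, (a * x1 z + b * x2 z) * (a * y1 z + b * y2 z) = 0 → z = r := by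
    intro i j hij hi hj
    obtain ⟨s, hs⟩ := expo_pair (x1 := y1) (x2 := y2) (y1 := x1) (y2 := x2) (F := E) (E := F)
      (κ := -1) (by norm_num) (fun z => by have := hW z; linear_combination -this)
      (hne i j hij) hF hE (hc i) (hc j) (hd i) (hd j) (fun z => by rw [hyE, hi]; ring)
      (fun z => by rw [hyE, hj]; ring) (hxF i) (hxF j) a b (by
        obtain ⟨z, hz⟩ := hab
        exact ⟨z, by rw [mul_comm]; exact hz⟩)
    exact ⟨s, fun z hz => hs z (by rw [mul_comm]; exact hz)⟩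
  rcases hmn 0 with a0 | a0
  · rcases hmn 1 with a1 | a1
    · exact caseM 0 1 (by decide) a0 a1
    · rcases hmn 2 with a2 | a2
      · exact caseM 0 2 (by decide) a0 a2
      · exact caseN 1 2 (by decide) a1 a2
  · rcases hmn 1 with a1 | a1
    · rcases hmn 2 with a2 | a2
      · exact caseM 1 2 (by decide) a1 a2
      · exact caseN 0 2 (by decide) a0 a2
    · exact caseN 0 1 (by decide) a0 a1

end Pool.Agent.H17.RC
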