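import Pool.Agent.H17.RC.ExpoMain

/-!
# The bound two is attained
-/

set_option autoImplicit false

namespace Pool.Agent.H17.RC

lemma sol_ex1 : Sol (fun z => -2 * Complex.exp (-z)) (fun _ => 4) (fun z => -Complex.exp z)
    (fun z => Complex.exp z) (fun _ => 1) := by
  constructor
  · intro z
    have h := Complex.hasDerivAt_exp z
    convert h using 1
    ring
  · intro z
    have h3 : Complex.exp z * Complex.exp (-z) = 1 := by
      rw [← Complex.exp_add, add_neg_cancel, Complex.exp_zero]
    have h4 : -(-2 * Complex.exp (-z)) * Complex.exp z + -((4 : ℂ) / 2) * 1 = 0 := by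
      linear_combination 2 * h3
    have h : HasDerivAt (fun _ : ℂ => (1 : ℂ)) 0 z := hasDerivAt_const z 1
    rw [← h4] at h
    exact h

lemma sol_ex2 : Sol (fun z => -2 * Complex.exp (-z)) (fun _ => 4) (fun z => -Complex.exp z)
    (fun _ => 1) (fun z => 2 * Complex.exp (-z)) := by
  have h3 : ∀ z : ℂ, Complex.exp z * Complex.exp (-z) = 1 := by
    intro z
    rw [← Complex.exp_add, add_neg_cancel, Complex.exp_zero]
  constructor
  · intro z
    have h4 : (4 : ℂ) / 2 * 1 + -Complex.exp z * (2 * Complex.exp (-z)) = 0 := by
      linear_combination -2 * h3 z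
    have h : HasDerivAt (fun _ : ℂ => (1 : ℂ)) 0 z := hasDerivAt_const z 1
    rw [← h4] at h
    exact h
  · intro z
    have h : HasDerivAt (fun z : ℂ => 2 * Complex.exp (-z)) (2 * (Complex.exp (-z) * -1)) z :=
      ((hasDerivAt_neg z).cexp).const_mul 2
    convert h using 1
    ring

theorem example_two : PlanePts (fun _ _ => 1) (Expo (fun z => -2 * Complex.exp (-z)) (fun _ => 4)
    (fun z => -Complex.exp z)) =
    {p | Complex.exp p.2 = Complex.exp p.1 ∨ 2 * Complex.exp p.2 = Complex.exp p.1} := by
  have h3 : ∀ z : ℂ, Complex.exp z * Complex.exp (-z) = 1 := by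
    intro z
    rw [← Complex.exp_add, add_neg_cancel, Complex.exp_zero]
  have hA : Differentiable ℂ (fun z : ℂ => -2 * Complex.exp (-z)) :=
    (differentiable_neg.cexp).const_mul _
  have hB : Differentiable ℂ (fun _ : ℂ => (4 : ℂ)) := differentiable_const _
  ext p
  simp only [Set.mem_setOf_eq]
  constructor
  · intro hp
    -- the solution through the point
    set u := Complex.exp p.2 with hu
    set al : ℂ := u * (2 * Complex.exp (-p.1)) - 1 with hal
    set be : ℂ := Complex.exp p.1 - u with hbe
    have hs := sol_ex1.comb sol_ex2 al be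
    have hval : (fun z => al * Complex.exp z + be * 1) p.1 =
        Complex.exp p.2 * (fun z => al * 1 + be * (2 * Complex.exp (-z))) p.1 := by
      simp only [← hu, hal, hbe]
      linear_combination (u * 2 - 2 * u) * h3 p.1
    have hden : al * 1 + be * (2 * Complex.exp (-p.1)) = 1 := by
      simp only [hal, hbe]
      linear_combination 2 * h3 p.1
    have hxy : ∀ z, (fun z => al * Complex.exp z + be * 1) z ≠ 0 ∨
        (fun z => al * 1 + be * (2 * Complex.exp (-z))) z ≠ 0 := by
      intro z
      by_contra hcon
      push Not at hcon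
      obtain ⟨e1, e2⟩ := hcon
      beta_reduce at e1 e2
      have hb : be = 0 := by
        linear_combination Complex.exp z * e2 - e1 - 2 * be * h3 z
      rw [hb] at e1 hden
      have ha : al = 1 := by linear_combination hden
      rw [ha] at e1
      exact Complex.exp_ne_zero z (by linear_combination e1)
    obtain ⟨r, hr⟩ := expo_at_most_one hA hB hs hxy hval hp
    by_cases ha : al = 0
    · right
      have h4 : u * (2 * Complex.exp (-p.1)) = 1 := sub_eq_zero.mp ha
      linear_combination Complex.exp p.1 * h4 - 2 * u * h3 p.1
    · by_cases hb : be = 0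
      · left
        exact (sub_eq_zero.mp hb).symm
      · exfalso
        -- two zeros of the numerator
        have hne : -be / al ≠ 0 := div_ne_zero (neg_ne_zero.mpr hb) ha
        have e1 : al * Complex.exp (Complex.log (-be / al)) + be * 1 = 0 := by
          rw [Complex.exp_log hne, mul_div_cancel₀ _ ha]
          ring
        have e2 : al * Complex.exp (Complex.log (-be / al) + 2 * Real.pi * Complex.I) + be * 1 =
            0 := by
          rw [Complex.exp_add, Complex.exp_two_pi_mul_I, mul_one]
          exact e1
        have r1 := hr (Complex.log (-be / al)) (by beta_reduce; rw [e1, zero_mul])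
        have r2 := hr (Complex.log (-be / al) + 2 * Real.pi * Complex.I)
          (by beta_reduce; rw [e2, zero_mul])
        rw [← r1] at r2
        have h5 : (2 : ℂ) * Real.pi * Complex.I = 0 := by linear_combination r2
        exact Complex.two_pi_I_ne_zero h5
  · rintro (hp | hp)
    · refine expo_plane sol_ex1 (p := p) ?_ one_ne_zero ⟨0, fun z hz => ?_⟩
      · simp only [hp, mul_one]
      · exfalso
        simp only [mul_one] at hz
        exact Complex.exp_ne_zero z hz
    · refine expo_plane sol_ex2 (p := p) ?_ ?_ ⟨0, fun z hz => ?_⟩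
      · beta_reduce
        linear_combination -(Complex.exp (-p.1)) * hp - h3 p.1
      · exact mul_ne_zero two_ne_zero (Complex.exp_ne_zero _)
      · exfalso
        simp only [one_mul] at hz
        exact mul_ne_zero two_ne_zero (Complex.exp_ne_zero _) hz

end Pool.Agent.H17.RC
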