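import Pool.Agent.H17.RC.Main

/-!
# An entire curve tangent to a Riccati field which meets a zero of `P` is vertical
-/

set_option autoImplicit false

open Filter Topology

namespace Pool.Agent.H17.RC

/-- if a tangent curve meets the line over a zero of `P`, its first component is constant -/
theorem const_of_hit (P A B C : ℂ → ℂ) (hP : Differentiable ℂ P) (hA : Differentiable ℂ A)
    (hB : Differentiable ℂ B) (hC : Differentiable ℂ C) {f g : ℂ → ℂ} (hf : Differentiable ℂ f)
    (hg : Differentiable ℂ g)
    (ht : ∀ t, (P (f t) ≠ 0 ∨ Ric A B C (f t) (g t) ≠ 0) ∧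
      ∃ l, deriv f t = l * P (f t) ∧ deriv g t = l * Ric A B C (f t) (g t))
    (t1 : ℂ) (h1 : P (f t1) = 0) : ∀ t, f t = f t1 := by
  set z1 := f t1 with hz1
  set Q : ℂ → ℂ := fun t => Ric A B C (f t) (g t) with hQdef
  set D : ℂ → ℂ := dslope P z1 with hDdef
  have hQ : Differentiable ℂ Q := by
    have : Q = fun t => A (f t) * g t ^ 2 + B (f t) * g t + C (f t) := rfl
    rw [this]
    exact (((hA.comp hf).mul (hg.pow 2)).add ((hB.comp hf).mul hg)).add (hC.comp hf)
  have hD : Differentiable ℂ D := by
    have h := (Complex.differentiableOn_dslope (s := Set.univ) (c := z1) (f := P)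
      Filter.univ_mem).mpr hP.differentiableOn
    exact differentiableOn_univ.mp h
  have hPD : ∀ z, P z = (z - z1) * D z := by
    intro z
    have h := sub_smul_dslope P z1 z
    rw [h1, sub_zero, smul_eq_mul] at h
    exact h.symm
  have hQ1 : Q t1 ≠ 0 := by
    rcases (ht t1).1 with h | h
    · exact absurd h1 h
    · exact h
  -- the cross relation
  have hcross : ∀ t, deriv f t * Q t = (f t - z1) * (deriv g t * D (f t)) := by
    intro t
    obtain ⟨-, l, e1, e2⟩ := ht t
    rw [e1, e2, hPD (f t)]
    simp only [hQdef]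
    ring
  -- a ball on which `Q` does not vanish
  have hev : ∀ᶠ t in 𝓝 t1, Q t ≠ 0 := hQ.continuous.continuousAt.eventually_ne hQ1
  obtain ⟨ρ, hρ, hball⟩ := Metric.eventually_nhds_iff_ball.mp hev
  have hdg : Differentiable ℂ (deriv g) := (hg.contDiff (n := 2)).differentiable_deriv_two
  have hk : DifferentiableOn ℂ (fun t => deriv g t * D (f t) / Q t) (Metric.ball t1 ρ) := by
    intro t htb
    exact (((hdg t).mul ((hD.comp hf) t)).div (hQ t) (hball t htb)).differentiableWithinAt
  obtain ⟨K, -, hK⟩ := (hk.isExactOn_ball).with_val_at t1 0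
  have hE : ∀ t ∈ Metric.ball t1 ρ, f t - z1 = 0 := by
    intro t htb
    have hd : ∀ s ∈ Metric.ball t1 ρ,
        HasDerivAt (fun s => (f s - z1) * Complex.exp (-K s)) 0 s := by
      intro s hs
      have e1 : HasDerivAt (fun s => (f s - z1) * Complex.exp (-K s))
          (deriv f s * Complex.exp (-K s) +
            (f s - z1) * (Complex.exp (-K s) * (-(deriv g s * D (f s) / Q s)))) s :=
        ((hf s).hasDerivAt.sub_const z1).mul ((hK s hs).neg.cexp)
      have hQs := hball s hs
      have e2 : deriv f s = (f s - z1) * (deriv g s * D (f s) / Q s) := by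
        rw [← mul_div_assoc, ← hcross s, mul_div_cancel_right₀ _ hQs]
      have e3 : deriv f s * Complex.exp (-K s) +
            (f s - z1) * (Complex.exp (-K s) * (-(deriv g s * D (f s) / Q s))) = 0 := by
        rw [e2]
        ring
      rwa [e3] at e1
    have hconst := (convex_ball t1 ρ).is_const_of_fderivWithin_eq_zero (𝕜 := ℂ)
      (f := fun s => (f s - z1) * Complex.exp (-K s))
      (fun s hs => (hd s hs).differentiableAt.differentiableWithinAt)
      (fun s hs => by
        rw [fderivWithin_of_isOpen Metric.isOpen_ball hs]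
        have := (hd s hs).hasFDerivAt.fderiv
        rw [this]
        ext
        simp)
      htb (Metric.mem_ball_self hρ)
    simp only [hz1, sub_self, zero_mul] at hconst
    exact (mul_eq_zero.mp hconst).resolve_right (Complex.exp_ne_zero _)
  -- identity theorem
  have hfa : AnalyticOnNhd ℂ f Set.univ := fun t _ => hf.analyticAt t
  have hca : AnalyticOnNhd ℂ (fun _ : ℂ => z1) Set.univ := fun t _ => analyticAt_const
  have heq : f =ᶠ[𝓝 t1] fun _ => z1 := by
    filter_upwards [Metric.ball_mem_nhds t1 hρ] with t htb
    exact sub_eq_zero.mp (hE t htb)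
  have := AnalyticOnNhd.eq_of_eventuallyEq hfa hca heq
  intro t
  rw [this]

end Pool.Agent.H17.RC
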