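import Pool.Agent.H17.RC.ExpoMain
import Pool.Agent.H17.RC.Hit

/-!
# Two zeros of the first component
-/

set_option autoImplicit false

namespace Pool.Agent.H17.RC

/-- A curve tangent to `P ∂_z + (A e^w + B + C e^(-w)) ∂_w` which meets `P = 0` has constant first
component. -/
theorem expo_const_of_hit (P A B C : ℂ → ℂ) (hP : Differentiable ℂ P) (hA : Differentiable ℂ A)
    (hB : Differentiable ℂ B) (hC : Differentiable ℂ C) {f g : ℂ → ℂ} (hf : Differentiable ℂ f)
    (hg : Differentiable ℂ g)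
    (ht : ∀ t, (P (f t) ≠ 0 ∨ Expo A B C (f t) (g t) ≠ 0) ∧
      ∃ l, deriv f t = l * P (f t) ∧ deriv g t = l * Expo A B C (f t) (g t)) (t1 : ℂ)
    (h1 : P (f t1) = 0) : ∀ t, f t = f t1 := by
  have hR : ∀ z w, Ric A B C z (Complex.exp w) = Complex.exp w * Expo A B C z w := by
    intro z w
    have h3 : Complex.exp w * Complex.exp (-w) = 1 := by
      rw [← Complex.exp_add, add_neg_cancel, Complex.exp_zero]
    simp only [Ric, Expo]
    linear_combination -C z * h3
  refine const_of_hit P A B C hP hA hB hC (f := f) (g := fun t => Complex.exp (g t)) hf hg.cexp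
    (fun t => ?_) t1 h1
  obtain ⟨h2, l, h3, h4⟩ := ht t
  refine ⟨?_, l, h3, ?_⟩
  · rcases h2 with h2 | h2
    · exact Or.inl h2
    · refine Or.inr ?_
      rw [hR]
      exact mul_ne_zero (Complex.exp_ne_zero _) h2
  · rw [((hg t).hasDerivAt.cexp).deriv, h4, hR]
    ring

/-- No point over `P ≠ 0` if `P` has two zeros. -/
lemma expo_two_zeros (P A B C : ℂ → ℂ) (hP : Differentiable ℂ P) (hA : Differentiable ℂ A)
    (hB : Differentiable ℂ B) (hC : Differentiable ℂ C) (r s : ℂ)
    (hrs : r ≠ s) (hr : P r = 0) (hs : P s = 0) :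
    ∀ p ∈ PlanePts (fun z _ => P z) (Expo A B C), P p.1 = 0 := by
  rintro p ⟨f, g, hf, hg, hf0, hg0, hnc, ht⟩
  by_contra hp
  have homit : ∀ t, P (f t) ≠ 0 := by
    intro t h0
    have h1 := expo_const_of_hit P A B C hP hA hB hC hf hg ht t h0 0
    rw [hf0] at h1
    rw [← h1] at h0
    exact hp h0
  have hfc : ∀ t, f t = f 0 := picard hf hrs (fun z hz => homit z (by rw [hz]; exact hr))
    (fun z hz => homit z (by rw [hz]; exact hs))
  have hdf : ∀ t, deriv f t = 0 := by
    intro t
    rw [show f = fun _ => f 0 from funext hfc]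
    simp
  have hgc : ∀ t, g t = g 0 := by
    intro t
    apply is_const_of_deriv_eq_zero (𝕜 := ℂ) hg
    intro u
    obtain ⟨-, l, h1, h2⟩ := ht u
    rw [hdf u] at h1
    have hl : l = 0 := (mul_eq_zero.mp h1.symm).resolve_right (homit u)
    rw [h2, hl, zero_mul]
  obtain ⟨t, h1 | h1⟩ := hnc
  · exact h1 (hfc t)
  · exact h1 (hgc t)

end Pool.Agent.H17.RC
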