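import Pool.Agent.H17.RC.ExpoOne
import Pool.Agent.H17.RC.ExpoTwo
import Pool.Agent.H17.RC.ExpoEx

/-!
# All fields `P ∂_z + (A e^w + B + C e^(-w)) ∂_w`
-/

set_option autoImplicit false

namespace Pool.Agent.H17.RC

/-- **All or, up to translation by `2πi`, at most two** leaves over `P ≠ 0`. -/
theorem all_or_two (P A B C : ℂ → ℂ) (hP : Differentiable ℂ P) (hA : Differentiable ℂ A)
    (hB : Differentiable ℂ B) (hC : Differentiable ℂ C) (hne : ∃ z, P z ≠ 0) :
    (∀ p : ℂ × ℂ, P p.1 ≠ 0 → p ∈ PlanePts (fun z _ => P z) (Expo A B C)) ∨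
      ∃ (c : ℂ → ℂ) (x y : Fin 2 → ℂ → ℂ), Differentiable ℂ c ∧ (∀ s, P (c s) ≠ 0) ∧
        (∀ i, Differentiable ℂ (x i) ∧ Differentiable ℂ (y i) ∧ (∀ s, x i s ≠ 0 ∨ y i s ≠ 0) ∧
          ∀ s, y i s ≠ 0 → HasDerivAt (fun s => x i s / y i s)
            (deriv c s * (Ric A B C (c s) (x i s / y i s) / P (c s))) s) ∧
        ∀ p ∈ PlanePts (fun z _ => P z) (Expo A B C), P p.1 ≠ 0 →
          ∃ i s, y i s ≠ 0 ∧ c s = p.1 ∧ Complex.exp p.2 = x i s / y i s := by
  have fin : ∀ {a x y : ℂ}, (x ≠ 0 ∨ y ≠ 0) → y * a = x → y ≠ 0 ∧ a = x / y := by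
    intro a x y h1 h2
    have hy : y ≠ 0 := by
      intro h0
      rw [h0, zero_mul] at h2
      rcases h1 with h | h
      · exact h h2.symm
      · exact h h0
    exact ⟨hy, by rw [← h2]; field_simp⟩
  by_cases h0 : ∀ z, P z ≠ 0
  · rcases expo_zero_free P A B C hP hA hB hC h0 with h | ⟨x, y, h1, h2⟩
    · left
      intro p _
      rw [h]
      trivial
    · right
      refine ⟨fun s => s, x, y, differentiable_id, h0, fun i => ⟨(h1 i).1, (h1 i).2.1,
        (h1 i).2.2.1, fun s hs => ?_⟩, ?_⟩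
      · have h3 := (h1 i).2.2.2 s hs
        have h4 : deriv (fun s : ℂ => s) s = 1 := deriv_id s
        rw [h4, one_mul]
        exact h3
      · intro p hp _
        obtain ⟨i, hi⟩ := h2 hp
        obtain ⟨h3, h4⟩ := fin ((h1 i).2.2.1 p.1) hi
        exact ⟨i, p.1, h3, rfl, h4⟩
  · push Not at h0
    obtain ⟨r, hr⟩ := h0
    by_cases h1 : ∀ z, P z = 0 → z = r
    · have hiff : ∀ z, P z = 0 ↔ z = r := fun z => ⟨h1 z, fun h => by rw [h]; exact hr⟩
      rcases expo_one_zero P A B C hP hA hB hC r hiff with h | ⟨x, y, h2, h3⟩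
      · left
        intro p hp
        exact h p (fun h4 => hp ((hiff _).mpr h4))
      · right
        refine ⟨fun s => r + Complex.exp s, x, y,
          (differentiable_const _).add Complex.differentiable_exp, ?_, fun i => ⟨(h2 i).1,
          (h2 i).2.1, (h2 i).2.2.1, fun s hs => ?_⟩, ?_⟩
        · intro s h4
          have h5 := (hiff _).mp h4
          exact Complex.exp_ne_zero s (by linear_combination h5)
        · have h4 := (h2 i).2.2.2 s hs
          have h5 : deriv (fun s : ℂ => r + Complex.exp s) s = Complex.exp s := by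
            simp
          rw [h5, ← mul_div_assoc]
          exact h4
        · intro p hp hp0
          obtain ⟨i, s, h4, h5⟩ := h3 p hp (fun h6 => hp0 ((hiff _).mpr h6))
          obtain ⟨h6, h7⟩ := fin ((h2 i).2.2.1 s) h5
          exact ⟨i, s, h6, h4, h7⟩
    · push Not at h1
      obtain ⟨s, hs, hsr⟩ := h1
      right
      obtain ⟨z0, hz0⟩ := hne
      refine ⟨fun _ => z0, fun _ _ => 0, fun _ _ => 1, differentiable_const _, fun _ => hz0,
        fun i => ⟨differentiable_const _, differentiable_const _, fun _ => Or.inr one_ne_zero,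
          fun t _ => ?_⟩, ?_⟩
      · simp only [zero_div, deriv_const, zero_mul]
        exact hasDerivAt_const t _
      · intro p hp hp0
        exact absurd (expo_two_zeros P A B C hP hA hB hC s r hsr hs hr p hp) hp0

end Pool.Agent.H17.RC
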