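import Pool.Agent.H17.RC.Main

/-!
# Riccati fields with zero-free first component
-/

set_option autoImplicit false

open MeasureTheory

namespace Pool.Agent.H17.RC

variable {P A B C : ℂ → ℂ}

lemma planePts_div (h0 : ∀ z, P z ≠ 0) :
    PlanePts (fun z _ => P z) (Ric A B C) =
      PlanePts (fun _ _ => 1) (Ric (fun z => A z / P z) (fun z => B z / P z)
        (fun z => C z / P z)) := by
  have hR : ∀ z w, Ric (fun z => A z / P z) (fun z => B z / P z) (fun z => C z / P z) z w =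
      Ric A B C z w / P z := by
    intro z w
    simp only [Ric]
    ring
  ext p
  constructor
  · rintro ⟨f, g, hf, hg, hf0, hg0, hnc, ht⟩
    refine ⟨f, g, hf, hg, hf0, hg0, hnc, fun t => ⟨Or.inl one_ne_zero, ?_⟩⟩
    obtain ⟨-, l, h1, h2⟩ := ht t
    refine ⟨l * P (f t), by rw [h1, mul_one], ?_⟩
    rw [h2, hR]
    have := h0 (f t)
    field_simp
  · rintro ⟨f, g, hf, hg, hf0, hg0, hnc, ht⟩
    refine ⟨f, g, hf, hg, hf0, hg0, hnc, fun t => ⟨Or.inl (h0 _), ?_⟩⟩
    obtain ⟨-, l, h1, h2⟩ := ht t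
    have := h0 (f t)
    refine ⟨l / P (f t), by rw [h1]; field_simp, ?_⟩
    rw [h2, hR]
    field_simp

/-- Zero-free first component: all leaves or at most three. -/
theorem zero_free_strong (P A B C : ℂ → ℂ) (hP : Differentiable ℂ P) (hA : Differentiable ℂ A)
    (hB : Differentiable ℂ B) (hC : Differentiable ℂ C) (h0 : ∀ z, P z ≠ 0) :
    PlanePts (fun z _ => P z) (Ric A B C) = Set.univ ∨
      ∃ x y : Fin 3 → ℂ → ℂ, (∀ i, Differentiable ℂ (x i) ∧ Differentiable ℂ (y i) ∧
        (∀ z, x i z ≠ 0 ∨ y i z ≠ 0) ∧ ∀ z, y i z ≠ 0 →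
          HasDerivAt (fun s => x i s / y i s) (Ric A B C z (x i z / y i z) / P z) z) ∧
        PlanePts (fun z _ => P z) (Ric A B C) ⊆ {p | ∃ i, y i p.1 * p.2 = x i p.1} := by
  rcases main (fun z => A z / P z) (fun z => B z / P z) (fun z => C z / P z)
    (hA.div hP h0) (hB.div hP h0) (hC.div hP h0) with h | ⟨x, y, h1, h2⟩
  · exact Or.inl ((planePts_div h0).trans h)
  · refine Or.inr ⟨x, y, fun i => ⟨(h1 i).1.diffx, (h1 i).1.diffy, (h1 i).2, ?_⟩, ?_⟩
    · intro z hz
      have h3 := (h1 i).1.riccati z hz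
      have h4 : A z / P z * (x i z / y i z) ^ 2 + B z / P z * (x i z / y i z) + C z / P z =
          Ric A B C z (x i z / y i z) / P z := by
        simp only [Ric]
        ring
      rwa [h4] at h3
    · rw [planePts_div h0]
      exact h2

/-- Three curves `y w = x` form a null set. -/
lemma null_curves (x y : Fin 3 → ℂ → ℂ) (hx : ∀ i, Differentiable ℂ (x i))
    (hy : ∀ i, Differentiable ℂ (y i)) (hxy : ∀ i z, x i z ≠ 0 ∨ y i z ≠ 0) :
    volume {p : ℂ × ℂ | ∃ i, y i p.1 * p.2 = x i p.1} = 0 := by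
  have h1 : {p : ℂ × ℂ | ∃ i, y i p.1 * p.2 = x i p.1} =
      ⋃ i, {p : ℂ × ℂ | y i p.1 * p.2 = x i p.1} := by
    ext p
    simp
  rw [h1, measure_iUnion_null_iff]
  exact fun i => null_curve (hx i).continuous (hy i).continuous (hxy i)

theorem zero_free (P A B C : ℂ → ℂ) (hP : Differentiable ℂ P) (hA : Differentiable ℂ A)
    (hB : Differentiable ℂ B) (hC : Differentiable ℂ C) (h0 : ∀ z, P z ≠ 0) :
    PlanePts (fun z _ => P z) (Ric A B C) = Set.univ ∨
      volume (PlanePts (fun z _ => P z) (Ric A B C)) = 0 := by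
  rcases zero_free_strong P A B C hP hA hB hC h0 with h | ⟨x, y, h1, h2⟩
  · exact Or.inl h
  · exact Or.inr (measure_mono_null h2 (null_curves x y (fun i => (h1 i).1)
      (fun i => (h1 i).2.1) (fun i => (h1 i).2.2.1)))

end Pool.Agent.H17.RC
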