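import Pool.Agent.H17.RC.Expo3
import Pool.Agent.H17.RC.Zf

/-!
# Fields `P ∂_z + (A e^w + B + C e^(-w)) ∂_w`, `P` zero-free
-/

set_option autoImplicit false

open MeasureTheory

namespace Pool.Agent.H17.RC

/-- All leaves or, up to translation by `2πi`, at most two. -/
theorem expo_main (A B C : ℂ → ℂ) (hA : Differentiable ℂ A) (hB : Differentiable ℂ B)
    (hC : Differentiable ℂ C) :
    PlanePts (fun _ _ => 1) (Expo A B C) = Set.univ ∨
      ∃ x y : Fin 2 → ℂ → ℂ, (∀ i, Sol A B C (x i) (y i) ∧ ∀ z, x i z ≠ 0 ∨ y i z ≠ 0) ∧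
        PlanePts (fun _ _ => 1) (Expo A B C) ⊆
          {p | ∃ i, y i p.1 * Complex.exp p.2 = x i p.1} := by
  obtain ⟨x1, y1, hx1, hy1, hdx1, hdy1⟩ := exists_linear (fun z => B z / 2) C (fun z => -A z)
    (fun z => -(B z / 2)) (hB.div_const 2) hC hA.neg (hB.div_const 2).neg 1 0
  obtain ⟨x2, y2, hx2, hy2, hdx2, hdy2⟩ := exists_linear (fun z => B z / 2) C (fun z => -A z)
    (fun z => -(B z / 2)) (hB.div_const 2) hC hA.neg (hB.div_const 2).neg 0 1
  have s1 : Sol A B C x1 y1 := ⟨hdx1, hdy1⟩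
  have s2 : Sol A B C x2 y2 := ⟨hdx2, hdy2⟩
  have hW : ∀ z, x1 z * y2 z - x2 z * y1 z = 1 := by
    intro z
    rw [s1.wronskian s2 z, hx1, hy1, hx2, hy2]
    ring
  have hne : ∀ a b : ℂ, (a ≠ 0 ∨ b ≠ 0) → ∀ z, a * x1 z + b * x2 z ≠ 0 ∨
      a * y1 z + b * y2 z ≠ 0 := by
    intro a b hab z
    by_contra hcon
    push Not at hcon
    obtain ⟨h1, h2⟩ := hcon
    have ha : a = 0 := by
      have := hW z
      linear_combination y2 z * h1 - x2 z * h2 - a * this
    have hb : b = 0 := by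
      have := hW z
      linear_combination x1 z * h2 - y1 z * h1 - b * this
    rcases hab with h | h
    · exact h ha
    · exact h hb
  set al : ℂ × ℂ → ℂ := fun p => Complex.exp p.2 * y2 p.1 - x2 p.1 with hal
  set be : ℂ × ℂ → ℂ := fun p => x1 p.1 - Complex.exp p.2 * y1 p.1 with hbe
  have hX : ∀ p, al p * x1 p.1 + be p * x2 p.1 = Complex.exp p.2 := by
    intro p
    have := hW p.1
    simp only [hal, hbe]
    linear_combination Complex.exp p.2 * this
  have hY : ∀ p, al p * y1 p.1 + be p * y2 p.1 = 1 := by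
    intro p
    have := hW p.1
    simp only [hal, hbe]
    linear_combination this
  have hab0 : ∀ p, al p ≠ 0 ∨ be p ≠ 0 := by
    intro p
    by_contra hcon
    push Not at hcon
    have := hY p
    rw [hcon.1, hcon.2] at this
    simp at this
  have hfwd : ∀ p ∈ PlanePts (fun _ _ => 1) (Expo A B C),
      ∃ r, ∀ z, (al p * x1 z + be p * x2 z) * (al p * y1 z + be p * y2 z) = 0 → z = r := by
    intro p hp
    refine expo_at_most_one hA hB (s1.comb s2 (al p) (be p)) (hne _ _ (hab0 p)) (p := p) ?_ hp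
    show al p * x1 p.1 + be p * x2 p.1 = Complex.exp p.2 * (al p * y1 p.1 + be p * y2 p.1)
    rw [hX, hY, mul_one]
  have hbwd : ∀ p : ℂ × ℂ,
      (∃ r, ∀ z, (al p * x1 z + be p * x2 z) * (al p * y1 z + be p * y2 z) = 0 → z = r) →
      p ∈ PlanePts (fun _ _ => 1) (Expo A B C) := by
    intro p hp
    refine expo_plane (s1.comb s2 (al p) (be p)) (p := p) ?_ ?_ hp
    · show al p * x1 p.1 + be p * x2 p.1 = Complex.exp p.2 * (al p * y1 p.1 + be p * y2 p.1)
      rw [hX, hY, mul_one]
    · show al p * y1 p.1 + be p * y2 p.1 ≠ 0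
      rw [hY]
      exact one_ne_zero
  by_cases hall : PlanePts (fun _ _ => 1) (Expo A B C) = Set.univ
  · exact Or.inl hall
  refine Or.inr ?_
  have hthree : ∀ q : Fin 3 → ℂ × ℂ, (∀ i, q i ∈ PlanePts (fun _ _ => 1) (Expo A B C)) →
      (∀ i j, i ≠ j → al (q i) * be (q j) - al (q j) * be (q i) ≠ 0) → False := by
    intro q hq hdet
    apply hall
    rw [Set.eq_univ_iff_forall]
    intro p
    apply hbwd
    refine expo_three s1.diffx s1.diffy s2.diffx s2.diffy hW (fun i => al (q i))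
      (fun i => be (q i)) hdet (fun i => hfwd _ (hq i)) (al p) (be p) ⟨p.1, ?_⟩
    rw [hX, hY, mul_one]
    exact Complex.exp_ne_zero _
  set S := PlanePts (fun _ _ => 1) (Expo A B C) with hS
  let D : ℂ × ℂ → ℂ × ℂ → ℂ := fun p q => al p * be q - al q * be p
  have hDs : ∀ p q, D p q = - D q p := by
    intro p q
    simp only [D]
    ring
  have hmem : ∀ p q : ℂ × ℂ, D p q = 0 →
      (al q * y1 p.1 + be q * y2 p.1) * Complex.exp p.2 = al q * x1 p.1 + be q * x2 p.1 := by
    intro p q h0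
    simp only [D, hal, hbe] at h0 ⊢
    linear_combination h0
  have htwo : ∃ q : Fin 2 → ℂ × ℂ, ∀ p ∈ S, ∃ i, D p (q i) = 0 := by
    by_cases e1 : ∃ q1, q1 ∈ S
    · obtain ⟨q1, hq1⟩ := e1
      by_cases e2 : ∃ q2 ∈ S, D q2 q1 ≠ 0
      · obtain ⟨q2, hq2, h21⟩ := e2
        refine ⟨![q1, q2], fun p hp => ?_⟩
        by_contra hcon
        push Not at hcon
        have h1 : D p q1 ≠ 0 := hcon 0
        have h2 : D p q2 ≠ 0 := hcon 1
        have sw : ∀ {a b : ℂ × ℂ}, D a b ≠ 0 → D b a ≠ 0 := by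
          intro a b h
          rw [hDs]
          exact neg_ne_zero.mpr h
        apply hthree ![q1, q2, p]
        · intro i
          fin_cases i
          · exact hq1
          · exact hq2
          · exact hp
        · intro i j hij
          fin_cases i <;> fin_cases j <;>
            first
            | exact absurd rfl hij
            | exact h21
            | exact h1
            | exact h2
            | exact sw h21
            | exact sw h1
            | exact sw h2
      · push Not at e2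
        exact ⟨fun _ => q1, fun p hp => ⟨0, e2 p hp⟩⟩
    · push Not at e1
      exact ⟨fun _ => (0, 0), fun p hp => absurd hp (e1 p)⟩
  obtain ⟨q, hq⟩ := htwo
  refine ⟨fun i z => al (q i) * x1 z + be (q i) * x2 z,
    fun i z => al (q i) * y1 z + be (q i) * y2 z, fun i => ⟨s1.comb s2 _ _, hne _ _ (hab0 _)⟩, ?_⟩
  intro p hp
  obtain ⟨i, hi⟩ := hq p hp
  exact ⟨i, hmem p (q i) hi⟩

variable {P A B C : ℂ → ℂ}

lemma expo_div (h0 : ∀ z, P z ≠ 0) :
    PlanePts (fun z _ => P z) (Expo A B C) =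
      PlanePts (fun _ _ => 1) (Expo (fun z => A z / P z) (fun z => B z / P z)
        (fun z => C z / P z)) := by
  have hR : ∀ z w, Expo (fun z => A z / P z) (fun z => B z / P z) (fun z => C z / P z) z w =
      Expo A B C z w / P z := by
    intro z w
    simp only [Expo]
    ring
  ext p
  constructor
  · rintro ⟨f, g, hf, hg, hf0, hg0, hnc, ht⟩
    refine ⟨f, g, hf, hg, hf0, hg0, hnc, fun t => ⟨Or.inl one_ne_zero, ?_⟩⟩
    obtain ⟨-, l, h1, h2⟩ := ht t
    refine ⟨l * P (f t), by rw [h1, mul_one], ?_⟩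
    rw [h2, hR]
    have := h0 (f t)
    field_simp
  · rintro ⟨f, g, hf, hg, hf0, hg0, hnc, ht⟩
    refine ⟨f, g, hf, hg, hf0, hg0, hnc, fun t => ⟨Or.inl (h0 _), ?_⟩⟩
    obtain ⟨-, l, h1, h2⟩ := ht t
    have := h0 (f t)
    refine ⟨l / P (f t), by rw [h1]; field_simp, ?_⟩
    rw [h2, hR]
    field_simp

/-- Zero-free first component: all leaves or, up to translation, at most two. -/
theorem expo_zero_free (P A B C : ℂ → ℂ) (hP : Differentiable ℂ P) (hA : Differentiable ℂ A)
    (hB : Differentiable ℂ B) (hC : Differentiable ℂ C) (h0 : ∀ z, P z ≠ 0) :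
    PlanePts (fun z _ => P z) (Expo A B C) = Set.univ ∨
      ∃ x y : Fin 2 → ℂ → ℂ, (∀ i, Differentiable ℂ (x i) ∧ Differentiable ℂ (y i) ∧
        (∀ z, x i z ≠ 0 ∨ y i z ≠ 0) ∧ ∀ z, y i z ≠ 0 →
          HasDerivAt (fun s => x i s / y i s) (Ric A B C z (x i z / y i z) / P z) z) ∧
        PlanePts (fun z _ => P z) (Expo A B C) ⊆
          {p | ∃ i, y i p.1 * Complex.exp p.2 = x i p.1} := by
  rcases expo_main (fun z => A z / P z) (fun z => B z / P z) (fun z => C z / P z)
    (hA.div hP h0) (hB.div hP h0) (hC.div hP h0) with h | ⟨x, y, h1, h2⟩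
  · exact Or.inl ((expo_div h0).trans h)
  · refine Or.inr ⟨x, y, fun i => ⟨(h1 i).1.diffx, (h1 i).1.diffy, (h1 i).2, ?_⟩, ?_⟩
    · intro z hz
      have h3 := (h1 i).1.riccati z hz
      have h4 : A z / P z * (x i z / y i z) ^ 2 + B z / P z * (x i z / y i z) + C z / P z =
          Ric A B C z (x i z / y i z) / P z := by
        simp only [Ric]
        ring
      rwa [h4] at h3
    · rw [expo_div h0]
      exact h2

end Pool.Agent.H17.RC
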