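import Pool.Agent.H17.RC.One
import Pool.Agent.H17.RC.ExpoMain
import Pool.Agent.H17.RC.ExpoTwo

/-!
# Fields `P ∂_z + (A e^w + B + C e^(-w)) ∂_w` whose first component has exactly one zero
-/

set_option autoImplicit false

namespace Pool.Agent.H17.RC

variable {P A B C : ℂ → ℂ} {r : ℂ}

/-- A curve upstairs gives a curve downstairs. -/
lemma expo_down {s : ℂ} {w : ℂ}
    (h : (s, w) ∈ PlanePts (fun s _ => upP P r s) (Expo (fun s => A (r + Complex.exp s))
      (fun s => B (r + Complex.exp s)) (fun s => C (r + Complex.exp s))))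
    (hr : ∀ z, P z = 0 ↔ z = r) :
    (r + Complex.exp s, w) ∈ PlanePts (fun z _ => P z) (Expo A B C) := by
  obtain ⟨u, g, hu, hg, hu0, hg0, hnc, ht⟩ := h
  have hf : ∀ t, HasDerivAt (fun t => r + Complex.exp (u t)) (Complex.exp (u t) * deriv u t) t :=
    fun t => ((hu t).hasDerivAt.cexp).const_add r
  refine ⟨fun t => r + Complex.exp (u t), g, fun t => (hf t).differentiableAt, hg, ?_, hg0, ?_,
    fun t => ⟨Or.inl (ne_zero_of_exp hr _), ?_⟩⟩
  · show r + Complex.exp (u 0) = r + Complex.exp s
    rw [hu0]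
  · by_contra hcon
    push Not at hcon
    have hdu : ∀ t, deriv u t = 0 := by
      intro t
      have h1 : (fun t => r + Complex.exp (u t)) = fun _ => r + Complex.exp (u 0) :=
        funext fun t => (hcon t).1
      have h2 := (hf t).deriv
      rw [h1, deriv_const] at h2
      exact (mul_eq_zero.mp h2.symm).resolve_left (Complex.exp_ne_zero _)
    obtain ⟨t, h1 | h1⟩ := hnc
    · exact h1 (is_const_of_deriv_eq_zero (𝕜 := ℂ) hu hdu t 0)
    · exact h1 (hcon t).2
  · obtain ⟨-, l, h1, h2⟩ := ht t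
    refine ⟨l, ?_, h2⟩
    rw [(hf t).deriv, h1]
    simp only [upP]
    have := Complex.exp_ne_zero (u t)
    field_simp

/-- A curve downstairs which starts outside the line `z = r` comes from a curve upstairs. -/
lemma expo_up (hP : Differentiable ℂ P) (hA : Differentiable ℂ A) (hB : Differentiable ℂ B)
    (hC : Differentiable ℂ C) (hr : ∀ z, P z = 0 ↔ z = r) {p : ℂ × ℂ}
    (hp : p ∈ PlanePts (fun z _ => P z) (Expo A B C)) (hpr : p.1 ≠ r) :
    ∃ s, r + Complex.exp s = p.1 ∧
      (s, p.2) ∈ PlanePts (fun s _ => upP P r s) (Expo (fun s => A (r + Complex.exp s))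
        (fun s => B (r + Complex.exp s)) (fun s => C (r + Complex.exp s))) := by
  obtain ⟨f, g, hf, hg, hf0, hg0, hnc, ht⟩ := hp
  have hne : ∀ t, f t - r ≠ 0 := by
    intro t1 h0
    have h1 : f t1 = r := sub_eq_zero.mp h0
    have h2 := expo_const_of_hit P A B C hP hA hB hC hf hg ht t1 ((hr _).2 h1) 0
    apply hpr
    rw [← hf0, h2, h1]
  obtain ⟨u, hu, hfu⟩ := Pool.Agent.H13.Borel.exists_entire_log
    (g := fun t => f t - r) (hf.sub_const r) hne
  have hfe : ∀ t, f t = r + Complex.exp (u t) := fun t => by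
    have := hfu t
    linear_combination this
  refine ⟨u 0, ?_, u, g, hu, hg, rfl, hg0, ?_, fun t => ⟨Or.inl (upP_ne_zero hr _), ?_⟩⟩
  · rw [← hfe 0, hf0]
  · obtain ⟨t, h1 | h1⟩ := hnc
    · refine ⟨t, Or.inl fun h2 => h1 ?_⟩
      rw [hfe t, hfe 0, h2]
    · exact ⟨t, Or.inr h1⟩
  · obtain ⟨-, l, h1, h2⟩ := ht t
    refine ⟨l, ?_, ?_⟩
    · have h3 : HasDerivAt (fun t => r + Complex.exp (u t)) (Complex.exp (u t) * deriv u t) t :=
        ((hu t).hasDerivAt.cexp).const_add r
      have h4 := h3.deriv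
      rw [← funext hfe, h1, hfe t] at h4
      simp only [upP]
      have := Complex.exp_ne_zero (u t)
      field_simp
      linear_combination -h4
    · rw [h2, hfe t]
      rfl

/-- Exactly one zero: all leaves outside the line over the zero or at most two leaves upstairs, up to translation. -/
theorem expo_one_zero (P A B C : ℂ → ℂ) (hP : Differentiable ℂ P) (hA : Differentiable ℂ A)
    (hB : Differentiable ℂ B) (hC : Differentiable ℂ C) (r : ℂ) (hr : ∀ z, P z = 0 ↔ z = r) :
    (∀ p : ℂ × ℂ, p.1 ≠ r → p ∈ PlanePts (fun z _ => P z) (Expo A B C)) ∨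
      ∃ x y : Fin 2 → ℂ → ℂ, (∀ i, Differentiable ℂ (x i) ∧ Differentiable ℂ (y i) ∧
        (∀ s, x i s ≠ 0 ∨ y i s ≠ 0) ∧ ∀ s, y i s ≠ 0 →
          HasDerivAt (fun s => x i s / y i s) (Complex.exp s *
            Ric A B C (r + Complex.exp s) (x i s / y i s) / P (r + Complex.exp s)) s) ∧
        ∀ p ∈ PlanePts (fun z _ => P z) (Expo A B C), p.1 ≠ r →
          ∃ i s, r + Complex.exp s = p.1 ∧ y i s * Complex.exp p.2 = x i s := by
  have hP' : Differentiable ℂ (upP P r) :=
    (diff_shift hP r).div Complex.differentiable_exp Complex.exp_ne_zero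
  rcases expo_zero_free (upP P r) (fun s => A (r + Complex.exp s))
    (fun s => B (r + Complex.exp s)) (fun s => C (r + Complex.exp s)) hP' (diff_shift hA r)
    (diff_shift hB r) (diff_shift hC r) (upP_ne_zero hr) with h | ⟨x, y, h1, h2⟩
  · left
    intro p hp
    have h3 : r + Complex.exp (Complex.log (p.1 - r)) = p.1 := by
      rw [Complex.exp_log (sub_ne_zero.2 hp)]
      ring
    have h4 := expo_down (P := P) (A := A) (B := B) (C := C) (r := r)
      (s := Complex.log (p.1 - r)) (w := p.2) (by rw [h]; trivial) hr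
    rw [h3] at h4
    exact h4
  · refine Or.inr ⟨x, y, fun i => ⟨(h1 i).1, (h1 i).2.1, (h1 i).2.2.1, ?_⟩, ?_⟩
    · intro s hs
      have h3 := (h1 i).2.2.2 s hs
      have h4 : Ric (fun s => A (r + Complex.exp s)) (fun s => B (r + Complex.exp s))
          (fun s => C (r + Complex.exp s)) s (x i s / y i s) / upP P r s =
          Complex.exp s * Ric A B C (r + Complex.exp s) (x i s / y i s) /
            P (r + Complex.exp s) := by
        have e1 := Complex.exp_ne_zero s
        have e2 := ne_zero_of_exp hr s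
        simp only [upP, Ric]
        field_simp
      rwa [h4] at h3
    · intro p hp hpr
      obtain ⟨s, hs, h3⟩ := expo_up hP hA hB hC hr hp hpr
      obtain ⟨i, hi⟩ := h2 h3
      exact ⟨i, s, hs, hi⟩

end Pool.Agent.H17.RC
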