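import Pool.Agent.H17.RC.Zf

/-!
# Riccati fields with one zero of `P`: the measure form
-/

set_option autoImplicit false

open MeasureTheory

namespace Pool.Agent.H17.RC

/-- the line `z = r` is a null set -/
lemma null_line (r : ℂ) : volume {p : ℂ × ℂ | p.1 = r} = 0 := by
  have h : {p : ℂ × ℂ | p.1 = r} = ({r} : Set ℂ) ×ˢ (Set.univ : Set ℂ) := by
    ext p
    simp
  rw [h, Measure.volume_eq_prod, Measure.prod_prod, measure_singleton, zero_mul]

/-- the lines over a countable set form a null set -/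
lemma null_lines {S : Set ℂ} (hS : S.Countable) : volume {p : ℂ × ℂ | p.1 ∈ S} = 0 := by
  have h : {p : ℂ × ℂ | p.1 ∈ S} = S ×ˢ (Set.univ : Set ℂ) := by
    ext p
    simp
  rw [h, Measure.volume_eq_prod, Measure.prod_prod, hS.measure_zero, zero_mul]

/-- `(s, w) ↦ (r + e^s, w)` maps null sets to null sets -/
lemma null_image (r : ℂ) {S : Set (ℂ × ℂ)} (hS : volume S = 0) :
    volume ((fun q : ℂ × ℂ => (r + Complex.exp q.1, q.2)) '' S) = 0 := by
  have hH : (volume : Measure (ℂ × ℂ)).IsAddHaarMeasure := by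
    rw [Measure.volume_eq_prod]
    infer_instance
  refine addHaar_image_eq_zero_of_differentiableOn_of_addHaar_eq_zero volume ?_ hS
  have h : Differentiable ℂ (fun q : ℂ × ℂ => (r + Complex.exp q.1, q.2)) :=
    ((differentiable_const r).add (Complex.differentiable_exp.comp differentiable_fst)).prodMk
      differentiable_snd
  exact (h.restrictScalars ℝ).differentiableOn

/-- the measure form of the case of one zero, from the strong form -/
theorem one_zero_of_strong (P A B C : ℂ → ℂ) (r : ℂ)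
    (h : (∀ p : ℂ × ℂ, p.1 ≠ r → p ∈ PlanePts (fun z _ => P z) (Ric A B C)) ∨
      ∃ x y : Fin 3 → ℂ → ℂ, (∀ i, Differentiable ℂ (x i) ∧ Differentiable ℂ (y i) ∧
        (∀ s, x i s ≠ 0 ∨ y i s ≠ 0) ∧ ∀ s, y i s ≠ 0 →
          HasDerivAt (fun s => x i s / y i s) (Complex.exp s *
            Ric A B C (r + Complex.exp s) (x i s / y i s) / P (r + Complex.exp s)) s) ∧
        ∀ p ∈ PlanePts (fun z _ => P z) (Ric A B C), p.1 ≠ r →
          ∃ i s, r + Complex.exp s = p.1 ∧ y i s * p.2 = x i s) :
    volume (PlanePts (fun z _ => P z) (Ric A B C)) = 0 ∨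
      volume (DiscPts (fun z _ => P z) (Ric A B C)) = 0 := by
  rcases h with h | ⟨x, y, h1, h2⟩
  · refine Or.inr (measure_mono_null ?_ (null_line r))
    rintro p ⟨-, hp⟩
    by_contra hne
    exact hp (h p hne)
  · refine Or.inl (measure_mono_null (t := {p : ℂ × ℂ | p.1 = r} ∪
      (fun q : ℂ × ℂ => (r + Complex.exp q.1, q.2)) ''
        {q : ℂ × ℂ | ∃ i, y i q.1 * q.2 = x i q.1}) ?_ ?_)
    · intro p hp
      by_cases hne : p.1 = r
      · exact Or.inl hne
      · obtain ⟨i, s, e1, e2⟩ := h2 p hp hne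
        refine Or.inr ⟨(s, p.2), ⟨i, e2⟩, ?_⟩
        exact Prod.ext e1 rfl
    · refine measure_union_null (null_line r) (null_image r ?_)
      exact null_curves x y (fun i => (h1 i).1) (fun i => (h1 i).2.1) (fun i => (h1 i).2.2.1)

end Pool.Agent.H17.RC
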