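import Pool.Agent.H13.Borel.Borel
import Pool.Agent.H13.Borel.EntireLog

/-!
# Picard's little theorem
-/

set_option autoImplicit false

namespace Pool.Agent.H17.RC

/-- **Picard's little theorem**: an entire function omitting two values is constant. -/
theorem picard {f : ℂ → ℂ} (hf : Differentiable ℂ f) {a b : ℂ} (hab : a ≠ b)
    (ha : ∀ z, f z ≠ a) (hb : ∀ z, f z ≠ b) (z : ℂ) : f z = f 0 := by
  by_contra hz
  obtain ⟨φ, hφ, hφe⟩ := Pool.Agent.H13.Borel.exists_entire_log (g := fun z => f z - a)
    (hf.sub_const a) (fun z => sub_ne_zero.mpr (ha z))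
  obtain ⟨χ, hχ, hχe⟩ := Pool.Agent.H13.Borel.exists_entire_log (g := fun z => f z - b)
    (hf.sub_const b) (fun z => sub_ne_zero.mpr (hb z))
  have key := Pool.Agent.H13.Borel.borel_classes (Finset.univ : Finset (Fin 3))
    ![Polynomial.C (Complex.exp (φ 0)), Polynomial.C (-Complex.exp (χ 0)),
      Polynomial.C (a - b)]
    ![fun z => φ z - φ 0, fun z => χ z - χ 0, fun _ => 0]
    (by
      intro i _
      fin_cases i
      · exact hφ.sub_const _
      · exact hχ.sub_const _
      · exact differentiable_const _)
    (by
      intro i _
      fin_cases i <;> simp)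
    (by
      intro z
      rw [Fin.sum_univ_three]
      simp only [Matrix.cons_val_zero, Matrix.cons_val_one, Matrix.cons_val_two,
        Matrix.head_cons, Matrix.tail_cons, Polynomial.eval_C, Matrix.cons_val]
      rw [← Complex.exp_add, neg_mul, ← Complex.exp_add, Complex.exp_zero]
      have h1 := hφe z
      have h2 := hχe z
      rw [show φ 0 + (φ z - φ 0) = φ z by ring, show χ 0 + (χ z - χ 0) = χ z by ring, ← h1, ← h2]
      ring)
    (fun _ => 0) {2}
    (by
      intro i
      rw [Finset.mem_singleton]
      constructor
      · rintro rfl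
        exact ⟨Finset.mem_univ _, rfl⟩
      · rintro ⟨-, hi⟩
        fin_cases i
        · exfalso
          apply hz
          have h1 : φ z - φ 0 = 0 := congrFun hi z
          have h2 := hφe z
          have h3 := hφe 0
          rw [sub_eq_zero.mp h1, ← h3] at h2
          simpa using h2
        · exfalso
          apply hz
          have h1 : χ z - χ 0 = 0 := congrFun hi z
          have h2 := hχe z
          have h3 := hχe 0
          rw [sub_eq_zero.mp h1, ← h3] at h2
          simpa using h2
        · rfl)
  rw [Finset.sum_singleton] at key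
  exact hab (sub_eq_zero.mp (Polynomial.C_eq_zero.mp key))

end Pool.Agent.H17.RC
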