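import Pool.Agent.H17.RC.Main
import Pool.Agent.H17.RC.Hit
import Pool.Agent.H17.RC.Pic

/-!
# A coefficient `P` with two zeros: the points on plane leaves are a null set
-/

set_option autoImplicit false

open MeasureTheory Filter

namespace Pool.Agent.H17.RC

/-- The zero set of an entire function which is not identically zero is a null set. -/
theorem zeros_null (P : ℂ → ℂ) (hP : Differentiable ℂ P) (hne : ∃ z, P z ≠ 0) :
    volume {z : ℂ | P z = 0} = 0 := by
  obtain ⟨z₀, hz₀⟩ := hne
  have hA : AnalyticOnNhd ℂ P Set.univ := fun z _ => hP.analyticAt z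
  have h1 : P ⁻¹' {0}ᶜ ∈ codiscrete ℂ := hA.preimage_zero_mem_codiscrete hz₀
  have h2 := ae_restrict_le_codiscreteWithin (μ := (volume : Measure ℂ)) MeasurableSet.univ h1
  rw [Measure.restrict_univ] at h2
  have h3 : volume (P ⁻¹' {0}ᶜ)ᶜ = 0 := mem_ae_iff.mp h2
  have h4 : (P ⁻¹' {0}ᶜ)ᶜ = {z : ℂ | P z = 0} := by
    ext z
    simp
  rw [← h4]
  exact h3

/-- The vertical lines over the zeros of an entire function form a null set. -/
theorem lines_null (P : ℂ → ℂ) (hP : Differentiable ℂ P) (hne : ∃ z, P z ≠ 0) :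
    volume {p : ℂ × ℂ | P p.1 = 0} = 0 := by
  have h : {p : ℂ × ℂ | P p.1 = 0} = {z : ℂ | P z = 0} ×ˢ (Set.univ : Set ℂ) := by
    ext p
    simp
  rw [h, Measure.volume_eq_prod, Measure.prod_prod, zeros_null P hP hne, zero_mul]

/-- Over the points where `P` does not vanish there is no plane leaf if `P` has two zeros. -/
theorem planePts_subset (P A B C : ℂ → ℂ) (hP : Differentiable ℂ P) (hA : Differentiable ℂ A)
    (hB : Differentiable ℂ B) (hC : Differentiable ℂ C) (r s : ℂ) (hrs : r ≠ s)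
    (hr : P r = 0) (hs : P s = 0) :
    PlanePts (fun z _ => P z) (Ric A B C) ⊆ {p : ℂ × ℂ | P p.1 = 0} := by
  rintro p ⟨f, g, hf, hg, hf0, hg0, ⟨t₀, hnc⟩, ht⟩
  show P p.1 = 0
  by_contra hp
  rw [← hf0] at hp
  have hit := const_of_hit P A B C hP hA hB hC hf hg ht
  have hcr : ∀ (c : ℂ), P c = 0 → ∀ t, f t ≠ c := by
    intro c hc t htc
    have h1 : P (f t) = 0 := by rw [htc]; exact hc
    have h2 := hit t h1 0
    exact hp (by rw [h2]; exact h1)
  have hconst : ∀ t, f t = f 0 := fun t => picard hf hrs (hcr r hr) (hcr s hs) t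
  have hdf : ∀ t, deriv f t = 0 := by
    intro t
    have hfc : f = fun _ => f 0 := funext hconst
    rw [hfc]
    exact deriv_const _ _
  have hdg : ∀ t, deriv g t = 0 := by
    intro t
    obtain ⟨-, l, h1, h2⟩ := ht t
    rw [hdf t] at h1
    have hl : l = 0 := by
      rcases mul_eq_zero.mp h1.symm with h | h
      · exact h
      · exact absurd h (by rw [hconst t]; exact hp)
    rw [h2, hl, zero_mul]
  have hgc : ∀ t, g t = g 0 := fun t => is_const_of_deriv_eq_zero hg hdg t 0
  rcases hnc with h | h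
  · exact h (hconst t₀)
  · exact h (hgc t₀)

theorem two_zeros (P A B C : ℂ → ℂ) (hP : Differentiable ℂ P) (hA : Differentiable ℂ A)
    (hB : Differentiable ℂ B) (hC : Differentiable ℂ C) (hne : ∃ z, P z ≠ 0) (r s : ℂ)
    (hrs : r ≠ s) (hr : P r = 0) (hs : P s = 0) :
    volume (PlanePts (fun z _ => P z) (Ric A B C)) = 0 :=
  measure_mono_null (planePts_subset P A B C hP hA hB hC r s hrs hr hs)
    (lines_null P hP hne)

end Pool.Agent.H17.RC
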