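import Mathlib

/-! Entire solutions of linear systems with entire coefficients (Picard series). -/

namespace Pool.Agent.H17.RC

open Metric Set Complex

section general

variable {E : Type*} [NormedAddCommGroup E] [NormedSpace ℂ E] [CompleteSpace E]

theorem exists_prim (f : ℂ → E) (hf : Differentiable ℂ f) :
    ∃ F : ℂ → E, F 0 = 0 ∧ ∀ z, HasDerivAt F (f z) z := by
  obtain ⟨F, hF⟩ := hf.isExactOn_univ
  exact ⟨fun z => F z - F 0, by simp, fun z => (hF z (mem_univ z)).sub_const _⟩

omit [CompleteSpace E] in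
theorem prim_bound (F f : ℂ → E) (h0 : F 0 = 0) (hF : ∀ z, HasDerivAt F (f z) z)
    (M K R : ℝ) (n : ℕ)
    (hf : ∀ z, ‖z‖ ≤ R → ‖f z‖ ≤ K * (M * (K * ‖z‖) ^ n / n.factorial))
    (z : ℂ) (hz : ‖z‖ ≤ R) :
    ‖F z‖ ≤ M * (K * ‖z‖) ^ (n + 1) / (n + 1).factorial := by
  have hd : ∀ s : ℝ, HasDerivAt (fun s : ℝ => F ((s : ℂ) * z)) (z • f ((s : ℂ) * z)) s := by
    intro s
    have h1 : HasDerivAt (fun s : ℝ => (s : ℂ) * z) z s := by
      have := (Complex.ofRealCLM.hasDerivAt (x := s)).mul_const z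
      simpa using this
    exact HasDerivAt.scomp s (hF _) h1
  have hn : ((n + 1 : ℕ).factorial : ℝ) = (n + 1) * n.factorial := by
    rw [Nat.factorial_succ]; push_cast; ring
  have hnf : (n.factorial : ℝ) ≠ 0 := by positivity
  have hn1 : (n + 1 : ℝ) ≠ 0 := by positivity
  have hB : ∀ s : ℝ, HasDerivAt
      (fun s : ℝ => M * (K * (s * ‖z‖)) ^ (n + 1) / (n + 1).factorial)
      (‖z‖ * (K * (M * (K * (s * ‖z‖)) ^ n / n.factorial))) s := by
    intro s
    have h2 : HasDerivAt (fun s : ℝ => K * (s * ‖z‖)) (K * (1 * ‖z‖)) s :=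
      ((hasDerivAt_id s).mul_const ‖z‖).const_mul K
    have h3 := ((h2.pow (n + 1)).const_mul M).div_const ((n + 1).factorial : ℝ)
    refine h3.congr_deriv ?_
    rw [hn]
    push_cast
    field_simp
  have key := image_norm_le_of_norm_deriv_right_le_deriv_boundary
    (f := fun s : ℝ => F ((s : ℂ) * z)) (f' := fun s : ℝ => z • f ((s : ℂ) * z))
    (a := 0) (b := 1)
    (B := fun s : ℝ => M * (K * (s * ‖z‖)) ^ (n + 1) / (n + 1).factorial)
    (B' := fun s : ℝ => ‖z‖ * (K * (M * (K * (s * ‖z‖)) ^ n / n.factorial)))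
    (fun s _ => (hd s).continuousAt.continuousWithinAt)
    (fun s _ => (hd s).hasDerivWithinAt)
    (by simp [h0]) hB
    (by
      intro s hs
      rw [norm_smul]
      refine mul_le_mul_of_nonneg_left ?_ (norm_nonneg z)
      have hs' : ‖(s : ℂ) * z‖ = s * ‖z‖ := by
        rw [norm_mul, Complex.norm_real, Real.norm_of_nonneg hs.1]
      have h4 := hf ((s : ℂ) * z) (by
        rw [hs']
        calc s * ‖z‖ ≤ 1 * ‖z‖ := mul_le_mul_of_nonneg_right hs.2.le (norm_nonneg z)
          _ ≤ R := by simpa using hz)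
      rwa [hs'] at h4)
  have k1 := key (x := 1) (by simp)
  simpa using k1

theorem exists_seq (A : ℂ → E →L[ℂ] E)
    (hA : ∀ v : ℂ → E, Differentiable ℂ v → Differentiable ℂ (fun z => A z (v z))) (v0 : E) :
    ∃ v : ℕ → ℂ → E, (∀ z, v 0 z = v0) ∧ (∀ n, v (n + 1) 0 = 0) ∧
      ∀ n z, HasDerivAt (v (n + 1)) (A z (v n z)) z := by
  choose! P hP using (fun (f : ℂ → E) (hf : Differentiable ℂ f) => exists_prim f hf)
  let v : ℕ → ℂ → E := fun n => Nat.rec (fun _ => v0) (fun _ w => P (fun z => A z (w z))) n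
  have hv : ∀ n, Differentiable ℂ (v n) := by
    intro n
    induction n with
    | zero => exact differentiable_const v0
    | succ n ih => exact fun z => ((hP _ (hA _ ih)).2 z).differentiableAt
  exact ⟨v, fun _ => rfl, fun n => (hP _ (hA _ (hv n))).1, fun n z => (hP _ (hA _ (hv n))).2 z⟩

theorem exists_sol (A : ℂ → E →L[ℂ] E)
    (hA : ∀ v : ℂ → E, Differentiable ℂ v → Differentiable ℂ (fun z => A z (v z)))
    (hK : ∀ R : ℝ, ∃ K : ℝ, 0 ≤ K ∧ ∀ z, ‖z‖ ≤ R → ∀ w, ‖A z w‖ ≤ K * ‖w‖) (v0 : E) :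
    ∃ x : ℂ → E, x 0 = v0 ∧ ∀ z, HasDerivAt x (A z (x z)) z := by
  obtain ⟨v, hv0, hv1, hv⟩ := exists_seq A hA v0
  refine ⟨fun z => ∑' n, v n z, ?_, fun z0 => ?_⟩
  · have : (∑' n, v n 0) = v 0 0 := tsum_eq_single 0 (by
      intro n hn
      obtain ⟨m, rfl⟩ := Nat.exists_eq_succ_of_ne_zero hn
      exact hv1 m)
    simpa [hv0] using this
  · obtain ⟨K, hK0, hKb⟩ := hK (‖z0‖ + 1)
    have hb : ∀ n z, ‖z‖ ≤ ‖z0‖ + 1 → ‖v n z‖ ≤ ‖v0‖ * (K * ‖z‖) ^ n / n.factorial := by
      intro n
      induction n with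
      | zero => intro z _; simp [hv0]
      | succ n ih =>
        intro z hz
        refine prim_bound (v (n + 1)) (fun z => A z (v n z)) (hv1 n) (hv n) ‖v0‖ K
          (‖z0‖ + 1) n ?_ z hz
        intro w hw
        exact (hKb w hw _).trans (mul_le_mul_of_nonneg_left (ih w hw) hK0)
    set R : ℝ := ‖z0‖ + 1 with hR
    have hR0 : 0 ≤ R := by positivity
    set u : ℕ → ℝ := fun n => ‖v0‖ * (K * R) ^ n / n.factorial with hu
    have hus : Summable u := by
      have := (Real.summable_pow_div_factorial (K * R)).mul_left ‖v0‖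
      refine this.congr (fun n => ?_)
      rw [hu]; simp only; ring
    have hbu : ∀ n z, ‖z‖ ≤ R → ‖v n z‖ ≤ u n := by
      intro n z hz
      refine (hb n z hz).trans ?_
      rw [hu]; simp only
      gcongr
    let g' : ℕ → ℂ → E := fun n z => Nat.casesOn n 0 (fun m => A z (v m z))
    let u' : ℕ → ℝ := fun n => Nat.casesOn n 0 (fun m => K * u m)
    have hu' : Summable u' := by
      rw [← summable_nat_add_iff 1]
      exact hus.mul_left K
    have hz0 : z0 ∈ ball (0 : ℂ) R := by simp [hR]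
    have hmain := hasDerivAt_tsum_of_isPreconnected (𝕜 := ℂ) (u := u') (g := v) (g' := g')
      (t := ball (0 : ℂ) R) (y₀ := 0) (y := z0) hu' isOpen_ball
      ((convex_ball (0 : ℂ) R).isPreconnected)
      (by
        intro n y hy
        cases n with
        | zero =>
          have : v 0 = fun _ => v0 := funext hv0
          rw [this]
          exact hasDerivAt_const y v0
        | succ m => exact hv m y)
      (by
        intro n y hy
        have hy' : ‖y‖ ≤ R := by
          rw [mem_ball_zero_iff] at hy; exact hy.le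
        cases n with
        | zero => simp [g', u']
        | succ m =>
          exact (hKb y hy' _).trans (mul_le_mul_of_nonneg_left (hbu m y hy') hK0))
      (by simp [hR]; positivity)
      (by
        refine summable_of_ne_finset_zero (s := {0}) ?_
        intro n hn
        have hn' : n ≠ 0 := by simpa using hn
        obtain ⟨m, rfl⟩ := Nat.exists_eq_succ_of_ne_zero hn'
        exact hv1 m)
      hz0
    refine hmain.congr_deriv ?_
    have hz0' : ‖z0‖ ≤ R := by rw [hR]; linarith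
    have hsv : Summable (fun n => v n z0) :=
      Summable.of_norm_bounded hus (fun n => hbu n z0 hz0')
    have hsg : Summable (fun n => g' n z0) := by
      rw [← summable_nat_add_iff 1]
      exact hsv.mapL (A z0)
    rw [hsg.tsum_eq_zero_add]
    have h1 : g' 0 z0 = 0 := rfl
    rw [h1, zero_add]
    have h2 : (fun n => g' (n + 1) z0) = fun n => A z0 (v n z0) := rfl
    rw [h2, (A z0).map_tsum hsv]

end general

theorem exists_linear (a b c d : ℂ → ℂ) (ha : Differentiable ℂ a) (hb : Differentiable ℂ b)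
    (hc : Differentiable ℂ c) (hd : Differentiable ℂ d) (x0 y0 : ℂ) :
    ∃ x y : ℂ → ℂ, x 0 = x0 ∧ y 0 = y0 ∧
      (∀ z, HasDerivAt x (a z * x z + b z * y z) z) ∧
      (∀ z, HasDerivAt y (c z * x z + d z * y z) z) := by
  let A : ℂ → (ℂ × ℂ) →L[ℂ] (ℂ × ℂ) := fun z =>
    (a z • ContinuousLinearMap.fst ℂ ℂ ℂ + b z • ContinuousLinearMap.snd ℂ ℂ ℂ).prod
      (c z • ContinuousLinearMap.fst ℂ ℂ ℂ + d z • ContinuousLinearMap.snd ℂ ℂ ℂ)
  have hAv : ∀ z w, A z w = (a z * w.1 + b z * w.2, c z * w.1 + d z * w.2) := by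
    intro z w; simp [A]
  obtain ⟨w, hw0, hw⟩ := exists_sol A
    (by
      intro v hv
      have h1 : Differentiable ℂ (fun z => (v z).1) := hv.fst
      have h2 : Differentiable ℂ (fun z => (v z).2) := hv.snd
      have : (fun z => A z (v z)) =
          fun z => (a z * (v z).1 + b z * (v z).2, c z * (v z).1 + d z * (v z).2) :=
        funext fun z => hAv z (v z)
      rw [this]
      exact ((ha.mul h1).add (hb.mul h2)).prodMk ((hc.mul h1).add (hd.mul h2)))
    (by
      intro R
      have hcont : Continuous fun z => ‖a z‖ + ‖b z‖ + (‖c z‖ + ‖d z‖) := by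
        have := ha.continuous; have := hb.continuous; have := hc.continuous
        have := hd.continuous
        fun_prop
      obtain ⟨K, hK⟩ := (isCompact_closedBall (0 : ℂ) R).bddAbove_image hcont.continuousOn
      refine ⟨max K 0, le_max_right _ _, fun z hz w => ?_⟩
      have h1 : ‖a z‖ + ‖b z‖ + (‖c z‖ + ‖d z‖) ≤ max K 0 :=
        (hK (mem_image_of_mem _ (by simpa using hz))).trans (le_max_left _ _)
      have hw1 : ‖w.1‖ ≤ ‖w‖ := norm_fst_le w
      have hw2 : ‖w.2‖ ≤ ‖w‖ := norm_snd_le w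
      have hw3 : 0 ≤ ‖w‖ := norm_nonneg w
      rw [hAv, Prod.norm_def]
      have e1 : ‖a z * w.1 + b z * w.2‖ ≤ (‖a z‖ + ‖b z‖) * ‖w‖ := by
        calc ‖a z * w.1 + b z * w.2‖ ≤ ‖a z‖ * ‖w.1‖ + ‖b z‖ * ‖w.2‖ := by
              refine (norm_add_le _ _).trans ?_
              rw [norm_mul, norm_mul]
          _ ≤ ‖a z‖ * ‖w‖ + ‖b z‖ * ‖w‖ := by gcongr
          _ = _ := by ring
      have e2 : ‖c z * w.1 + d z * w.2‖ ≤ (‖c z‖ + ‖d z‖) * ‖w‖ := by
        calc ‖c z * w.1 + d z * w.2‖ ≤ ‖c z‖ * ‖w.1‖ + ‖d z‖ * ‖w.2‖ := by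
              refine (norm_add_le _ _).trans ?_
              rw [norm_mul, norm_mul]
          _ ≤ ‖c z‖ * ‖w‖ + ‖d z‖ * ‖w‖ := by gcongr
          _ = _ := by ring
      refine max_le (e1.trans (mul_le_mul_of_nonneg_right ?_ hw3))
        (e2.trans (mul_le_mul_of_nonneg_right ?_ hw3))
      · have := norm_nonneg (c z); have := norm_nonneg (d z); linarith
      · have := norm_nonneg (a z); have := norm_nonneg (b z); linarith)
    (x0, y0)
  refine ⟨fun z => (w z).1, fun z => (w z).2, by simp [hw0], by simp [hw0], fun z => ?_,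
    fun z => ?_⟩
  · have := (hw z)
    rw [hAv] at this
    exact this.fst
  · have := (hw z)
    rw [hAv] at this
    exact this.snd

end Pool.Agent.H17.RC
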