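import Pool.Agent.H17.RC.Geo
import Pool.Agent.H17.RC.Pic
import Pool.Agent.H17.RC.Lin
import Pool.Agent.H17.RC.Four

/-!
# Riccati vector fields: all leaves or at most three are covered by `ℂ`
-/

set_option autoImplicit false

open MeasureTheory

namespace Pool.Agent.H17.RC


variable {A B C x y : ℂ → ℂ}

/-- A point of a leaf covered by `ℂ`: the denominator has at most one zero. -/
lemma at_most_one (hA : Differentiable ℂ A) (hB : Differentiable ℂ B) (h : Sol A B C x y)
    (hxy : ∀ z, x z ≠ 0 ∨ y z ≠ 0) {p : ℂ × ℂ} (hp : x p.1 = p.2 * y p.1)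
    (hpp : p ∈ PlanePts (fun _ _ => 1) (Ric A B C)) : ∃ r, ∀ z, y z = 0 → z = r := by
  obtain ⟨f, g, hf, hg, hf0, hg0, hnc, ht⟩ := hpp
  have hd : ∀ t, HasDerivAt g (deriv f t * (A (f t) * g t ^ 2 + B (f t) * g t + C (f t))) t := by
    intro t
    obtain ⟨-, l, h1, h2⟩ := ht t
    rw [mul_one] at h1
    rw [h1]
    have h3 := (hg t).hasDerivAt
    rw [h2] at h3
    exact h3
  have hst := h.stay hA hB hf hd (by rw [hf0, hg0]; exact hp)
  have hy : ∀ t, y (f t) ≠ 0 := by
    intro t h0
    have h1 := hst t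
    rw [h0, mul_zero] at h1
    rcases hxy (f t) with h2 | h2
    · exact h2 h1
    · exact h2 h0
  have hfc : ∃ t, f t ≠ f 0 := by
    by_contra hcon
    push Not at hcon
    have hdf : ∀ t, deriv f t = 0 := by
      intro t
      rw [show f = fun _ => f 0 from funext hcon]
      simp
    have hgc : ∀ t, g t = g 0 := by
      intro t
      apply is_const_of_deriv_eq_zero (𝕜 := ℂ) hg
      intro s
      rw [(hd s).deriv, hdf, zero_mul]
    obtain ⟨t, h1 | h1⟩ := hnc
    · exact h1 (hcon t)
    · exact h1 (hgc t)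
  obtain ⟨t, ht1⟩ := hfc
  by_cases hz : ∃ r, y r = 0
  · obtain ⟨r, hr⟩ := hz
    refine ⟨r, fun z hz => ?_⟩
    by_contra hne
    exact ht1 (picard hf hne (fun s hs => hy s (by rw [hs]; exact hz))
      (fun s hs => hy s (by rw [hs]; exact hr)) t)
  · push Not at hz
    exact ⟨0, fun z h0 => absurd h0 (hz z)⟩

/-- If the denominator has at most one zero, the leaf is covered by `ℂ`. -/
lemma plane_of_at_most_one (h : Sol A B C x y) {p : ℂ × ℂ} (hp : x p.1 = p.2 * y p.1)
    (hy0 : y p.1 ≠ 0) (h1 : ∃ r, ∀ z, y z = 0 → z = r) :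
    p ∈ PlanePts (fun _ _ => 1) (Ric A B C) := by
  obtain ⟨r, hr⟩ := h1
  have key : ∃ f : ℂ → ℂ, Differentiable ℂ f ∧ f 0 = p.1 ∧ (∃ t, f t ≠ f 0) ∧
      ∀ t, y (f t) ≠ 0 := by
    by_cases hyr : y r = 0
    · have hne : p.1 - r ≠ 0 := by
        intro h0
        apply hy0
        rw [sub_eq_zero.mp h0]
        exact hyr
      refine ⟨fun t => r + (p.1 - r) * Complex.exp t, ?_, ?_, ?_, ?_⟩
      · exact (differentiable_const _).add ((differentiable_const _).mul Complex.differentiable_exp)
      · simp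
      · refine ⟨(Real.pi : ℂ) * Complex.I, ?_⟩
        intro h0
        simp only [Complex.exp_pi_mul_I, Complex.exp_zero] at h0
        apply hne
        linear_combination -(1 / 2 : ℂ) * h0
      · intro t h0
        have h2 := hr _ h0
        have h3 : (p.1 - r) * Complex.exp t = 0 := by linear_combination h2
        exact (mul_ne_zero hne (Complex.exp_ne_zero t)) h3
    · refine ⟨fun t => p.1 + t, ?_, ?_, ?_, ?_⟩
      · exact (differentiable_const _).add differentiable_id
      · simp
      · exact ⟨1, by simp⟩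
      · intro t h0
        apply hyr
        rw [← hr _ h0]
        exact h0
  obtain ⟨f, hf, hf0, hfc, hfy⟩ := key
  have hd : ∀ t, HasDerivAt (fun t => x (f t) / y (f t))
      (Ric A B C (f t) (x (f t) / y (f t)) * deriv f t) t := fun t =>
    (h.riccati (f t) (hfy t)).comp t (hf t).hasDerivAt
  refine ⟨f, fun t => x (f t) / y (f t), hf, fun t => (hd t).differentiableAt, hf0, ?_, ?_, ?_⟩
  · show x (f 0) / y (f 0) = p.2
    rw [hf0, hp]
    field_simp
  · obtain ⟨t, ht⟩ := hfc
    exact ⟨t, Or.inl ht⟩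
  · intro t
    refine ⟨Or.inl one_ne_zero, deriv f t, (mul_one _).symm, ?_⟩
    rw [(hd t).deriv, mul_comm]

/-- The curve `y w = x` is a null set. -/
lemma null_curve (hx : Continuous x) (hy : Continuous y) (hxy : ∀ z, x z ≠ 0 ∨ y z ≠ 0) :
    volume {p : ℂ × ℂ | y p.1 * p.2 = x p.1} = 0 := by
  have hm : MeasurableSet {p : ℂ × ℂ | y p.1 * p.2 = x p.1} := by
    apply IsClosed.measurableSet
    exact isClosed_eq ((hy.comp continuous_fst).mul continuous_snd) (hx.comp continuous_fst)
  rw [Measure.volume_eq_prod, Measure.measure_prod_null hm]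
  filter_upwards with z
  apply Set.Subsingleton.measure_zero
  intro w hw w' hw'
  simp only [Set.mem_preimage, Set.mem_setOf_eq] at hw hw'
  by_cases h0 : y z = 0
  · rw [h0, zero_mul] at hw
    rcases hxy z with h1 | h1
    · exact absurd hw.symm h1
    · exact absurd h0 h1
  · exact mul_left_cancel₀ h0 (hw.trans hw'.symm)

/-- **Main theorem.** -/
theorem main (A B C : ℂ → ℂ) (hA : Differentiable ℂ A) (hB : Differentiable ℂ B)
    (hC : Differentiable ℂ C) :
    PlanePts (fun _ _ => 1) (Ric A B C) = Set.univ ∨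
      ∃ x y : Fin 3 → ℂ → ℂ, (∀ i, Sol A B C (x i) (y i) ∧ ∀ z, x i z ≠ 0 ∨ y i z ≠ 0) ∧
        PlanePts (fun _ _ => 1) (Ric A B C) ⊆ {p | ∃ i, y i p.1 * p.2 = x i p.1} := by
  obtain ⟨x1, y1, hx1, hy1, hdx1, hdy1⟩ := exists_linear (fun z => B z / 2) C (fun z => -A z)
    (fun z => -(B z / 2)) (hB.div_const 2) hC hA.neg (hB.div_const 2).neg 1 0
  obtain ⟨x2, y2, hx2, hy2, hdx2, hdy2⟩ := exists_linear (fun z => B z / 2) C (fun z => -A z)
    (fun z => -(B z / 2)) (hB.div_const 2) hC hA.neg (hB.div_const 2).neg 0 1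
  have s1 : Sol A B C x1 y1 := ⟨hdx1, hdy1⟩
  have s2 : Sol A B C x2 y2 := ⟨hdx2, hdy2⟩
  have hW : ∀ z, x1 z * y2 z - x2 z * y1 z = 1 := by
    intro z
    rw [s1.wronskian s2 z, hx1, hy1, hx2, hy2]
    ring
  -- the solution with parameters `(a, b)`
  have hne : ∀ a b : ℂ, (a ≠ 0 ∨ b ≠ 0) → ∀ z, a * x1 z + b * x2 z ≠ 0 ∨
      a * y1 z + b * y2 z ≠ 0 := by
    intro a b hab z
    by_contra hcon
    push Not at hcon
    obtain ⟨h1, h2⟩ := hcon
    have ha : a = 0 := by
      have := hW z
      linear_combination y2 z * h1 - x2 z * h2 - a * this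
    have hb : b = 0 := by
      have := hW z
      linear_combination x1 z * h2 - y1 z * h1 - b * this
    rcases hab with h | h
    · exact h ha
    · exact h hb
  set al : ℂ × ℂ → ℂ := fun p => p.2 * y2 p.1 - x2 p.1 with hal
  set be : ℂ × ℂ → ℂ := fun p => x1 p.1 - p.2 * y1 p.1 with hbe
  have hX : ∀ p, al p * x1 p.1 + be p * x2 p.1 = p.2 := by
    intro p
    have := hW p.1
    simp only [hal, hbe]
    linear_combination p.2 * this
  have hY : ∀ p, al p * y1 p.1 + be p * y2 p.1 = 1 := by
    intro p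
    have := hW p.1
    simp only [hal, hbe]
    linear_combination this
  have hab0 : ∀ p, al p ≠ 0 ∨ be p ≠ 0 := by
    intro p
    by_contra hcon
    push Not at hcon
    have := hY p
    rw [hcon.1, hcon.2] at this
    simp at this
  have hfwd : ∀ p ∈ PlanePts (fun _ _ => 1) (Ric A B C),
      ∃ r, ∀ z, al p * y1 z + be p * y2 z = 0 → z = r := by
    intro p hp
    refine at_most_one hA hB (s1.comb s2 (al p) (be p)) (hne _ _ (hab0 p)) (p := p) ?_ hp
    show al p * x1 p.1 + be p * x2 p.1 = p.2 * (al p * y1 p.1 + be p * y2 p.1)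
    rw [hX, hY, mul_one]
  have hbwd : ∀ p : ℂ × ℂ, (∃ r, ∀ z, al p * y1 z + be p * y2 z = 0 → z = r) →
      p ∈ PlanePts (fun _ _ => 1) (Ric A B C) := by
    intro p hp
    refine plane_of_at_most_one (s1.comb s2 (al p) (be p)) (p := p) ?_ ?_ hp
    · show al p * x1 p.1 + be p * x2 p.1 = p.2 * (al p * y1 p.1 + be p * y2 p.1)
      rw [hX, hY, mul_one]
    · show al p * y1 p.1 + be p * y2 p.1 ≠ 0
      rw [hY]
      exact one_ne_zero
  by_cases hall : PlanePts (fun _ _ => 1) (Ric A B C) = Set.univ
  · exact Or.inl hall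
  refine Or.inr ?_
  -- no four pairwise different leaves
  have hfour : ∀ q : Fin 4 → ℂ × ℂ, (∀ i, q i ∈ PlanePts (fun _ _ => 1) (Ric A B C)) →
      (∀ i j, i ≠ j → al (q i) * be (q j) - al (q j) * be (q i) ≠ 0) → False := by
    intro q hq hdet
    apply hall
    rw [Set.eq_univ_iff_forall]
    intro p
    apply hbwd
    apply four_or_all y1 y2 s1.diffy s2.diffy ?_ (fun i => al (q i)) (fun i => be (q i)) hdet
      (fun i => hfwd _ (hq i)) (al p) (be p) ⟨p.1, by rw [hY]; exact one_ne_zero⟩
    intro z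
    by_contra hcon
    push Not at hcon
    have := hW z
    rw [hcon.1, hcon.2] at this
    simp at this
  set S := PlanePts (fun _ _ => 1) (Ric A B C) with hS
  let D : ℂ × ℂ → ℂ × ℂ → ℂ := fun p q => al p * be q - al q * be p
  have hDs : ∀ p q, D p q = - D q p := by
    intro p q
    simp only [D]
    ring
  have hmem : ∀ p q : ℂ × ℂ, D p q = 0 →
      (al q * y1 p.1 + be q * y2 p.1) * p.2 = al q * x1 p.1 + be q * x2 p.1 := by
    intro p q h0
    simp only [D, hal, hbe] at h0 ⊢
    linear_combination h0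
  -- three points such that every point of `S` is on the leaf of one of them
  have hthree : ∃ q : Fin 3 → ℂ × ℂ, ∀ p ∈ S, ∃ i, D p (q i) = 0 := by
    by_cases e1 : ∃ q1, q1 ∈ S
    · obtain ⟨q1, hq1⟩ := e1
      by_cases e2 : ∃ q2 ∈ S, D q2 q1 ≠ 0
      · obtain ⟨q2, hq2, h21⟩ := e2
        by_cases e3 : ∃ q3 ∈ S, D q3 q1 ≠ 0 ∧ D q3 q2 ≠ 0
        · obtain ⟨q3, hq3, h31, h32⟩ := e3
          refine ⟨![q1, q2, q3], fun p hp => ?_⟩
          by_contra hcon
          push Not at hcon
          have h1 : D p q1 ≠ 0 := hcon 0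
          have h2 : D p q2 ≠ 0 := hcon 1
          have h3 : D p q3 ≠ 0 := hcon 2
          have sw : ∀ {a b : ℂ × ℂ}, D a b ≠ 0 → D b a ≠ 0 := by
            intro a b h
            rw [hDs]
            exact neg_ne_zero.mpr h
          apply hfour ![q1, q2, q3, p]
          · intro i
            fin_cases i
            · exact hq1
            · exact hq2
            · exact hq3
            · exact hp
          · intro i j hij
            fin_cases i <;> fin_cases j <;>
              first
              | exact absurd rfl hij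
              | exact h21
              | exact h31
              | exact h32
              | exact h1
              | exact h2
              | exact h3
              | exact sw h21
              | exact sw h31
              | exact sw h32
              | exact sw h1
              | exact sw h2
              | exact sw h3
        · push Not at e3
          refine ⟨![q1, q2, q2], fun p hp => ?_⟩
          by_cases h1 : D p q1 = 0
          · exact ⟨0, h1⟩
          · exact ⟨1, e3 p hp h1⟩
      · push Not at e2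
        exact ⟨fun _ => q1, fun p hp => ⟨0, e2 p hp⟩⟩
    · push Not at e1
      exact ⟨fun _ => (0, 0), fun p hp => absurd hp (e1 p)⟩
  obtain ⟨q, hq⟩ := hthree
  refine ⟨fun i z => al (q i) * x1 z + be (q i) * x2 z,
    fun i z => al (q i) * y1 z + be (q i) * y2 z, fun i => ⟨s1.comb s2 _ _, hne _ _ (hab0 _)⟩, ?_⟩
  intro p hp
  obtain ⟨i, hi⟩ := hq p hp
  exact ⟨i, hmem p (q i) hi⟩

end Pool.Agent.H17.RC
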