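import Mathlib
import Pool.Agent.H17.RC.Main

/-!
# The vertical case: `P = 0`
-/

set_option autoImplicit false

open MeasureTheory

namespace Pool.Agent.H17.RC

/-- The zero set of an entire function which is not identically zero is a null set, and so is its
product with `ℂ`. -/
lemma null_zeros {D : ℂ → ℂ} (hD : Differentiable ℂ D) (hne : ∃ z, D z ≠ 0) :
    volume {p : ℂ × ℂ | D p.1 = 0} = 0 := by
  obtain ⟨x, hx⟩ := hne
  have hA : AnalyticOnNhd ℂ D Set.univ := fun z _ => hD.analyticAt z
  have h1 : D ⁻¹' {0}ᶜ ∈ Filter.codiscrete ℂ := hA.preimage_zero_mem_codiscrete hx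
  have h2 : D ⁻¹' {0}ᶜ ∈ ae ((volume : Measure ℂ).restrict Set.univ) :=
    ae_restrict_le_codiscreteWithin MeasurableSet.univ h1
  rw [Measure.restrict_univ, mem_ae_iff] at h2
  have h3 : {p : ℂ × ℂ | D p.1 = 0} = (D ⁻¹' {0}ᶜ)ᶜ ×ˢ (Set.univ : Set ℂ) := by
    ext p
    simp
  rw [h3, Measure.volume_eq_prod, Measure.prod_prod, h2, zero_mul]

/-- An entire curve tangent to the vertical field stays in one vertical line, so its second
component is a non-constant entire function which avoids the zeros of the quadratic. -/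
lemma vertical_curve {A B C : ℂ → ℂ} {p : ℂ × ℂ}
    (hp : p ∈ PlanePts (fun _ _ => 0) (Ric A B C)) :
    ∃ g : ℂ → ℂ, Differentiable ℂ g ∧ (∃ t, g t ≠ g 0) ∧ ∀ t, Ric A B C p.1 (g t) ≠ 0 := by
  obtain ⟨f, g, hf, hg, hf0, hg0, hnc, ht⟩ := hp
  have hd : ∀ t, deriv f t = 0 := by
    intro t
    obtain ⟨-, l, h1, -⟩ := ht t
    rw [h1, mul_zero]
  have hfc : ∀ t, f t = f 0 := fun t => is_const_of_deriv_eq_zero (𝕜 := ℂ) hf hd t 0
  refine ⟨g, hg, ?_, ?_⟩
  · obtain ⟨t, h | h⟩ := hnc
    · exact absurd (hfc t) h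
    · exact ⟨t, h⟩
  · intro t
    obtain ⟨h, -⟩ := ht t
    rcases h with h | h
    · exact absurd rfl h
    · rwa [hfc t, hf0] at h

lemma vertical_two {A B C : ℂ → ℂ} {p : ℂ × ℂ}
    (hD : A p.1 * (B p.1 ^ 2 - 4 * A p.1 * C p.1) ≠ 0) :
    p ∉ PlanePts (fun _ _ => 0) (Ric A B C) := by
  intro hp
  obtain ⟨g, hg, ⟨t, ht⟩, hav⟩ := vertical_curve hp
  have hA : A p.1 ≠ 0 := left_ne_zero_of_mul hD
  have hd : B p.1 ^ 2 - 4 * A p.1 * C p.1 ≠ 0 := right_ne_zero_of_mul hD
  obtain ⟨δ, hδ⟩ := IsAlgClosed.exists_pow_nat_eq (B p.1 ^ 2 - 4 * A p.1 * C p.1) (n := 2) two_pos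
  have hδ0 : δ ≠ 0 := by
    rintro rfl
    apply hd
    rw [← hδ]; simp
  have hroot : ∀ e : ℂ, e ^ 2 = B p.1 ^ 2 - 4 * A p.1 * C p.1 →
      Ric A B C p.1 ((-(B p.1) + e) / (2 * A p.1)) = 0 := by
    intro e he
    simp only [Ric]
    field_simp
    linear_combination he
  apply ht
  refine picard hg (a := (-(B p.1) + δ) / (2 * A p.1)) (b := (-(B p.1) + -δ) / (2 * A p.1))
    ?_ ?_ ?_ t
  · intro h
    have h2 : (2 * A p.1) ≠ 0 := mul_ne_zero two_ne_zero hA
    rw [div_left_inj' h2] at h
    apply hδ0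
    linear_combination (1 / 2 : ℂ) * h
  · intro s hs
    apply hav s
    rw [hs]
    exact hroot δ hδ
  · intro s hs
    apply hav s
    rw [hs]
    exact hroot (-δ) (by rw [neg_sq]; exact hδ)

/-- If the quadratic has at most one zero, all points of the line off the zero are covered. -/
lemma vertical_one {A B C : ℂ → ℂ} {p : ℂ × ℂ} (hp : Ric A B C p.1 p.2 ≠ 0)
    (h1 : ∃ r, ∀ w, Ric A B C p.1 w = 0 → w = r) :
    p ∈ PlanePts (fun _ _ => 0) (Ric A B C) := by
  obtain ⟨r, hr⟩ := h1
  have key : ∃ g : ℂ → ℂ, Differentiable ℂ g ∧ g 0 = p.2 ∧ (∃ t, g t ≠ g 0) ∧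
      ∀ t, Ric A B C p.1 (g t) ≠ 0 := by
    by_cases hyr : Ric A B C p.1 r = 0
    · have hne : p.2 - r ≠ 0 := by
        intro h0
        apply hp
        rw [sub_eq_zero.mp h0]
        exact hyr
      refine ⟨fun t => r + (p.2 - r) * Complex.exp t, ?_, ?_, ?_, ?_⟩
      · exact (differentiable_const _).add ((differentiable_const _).mul Complex.differentiable_exp)
      · simp
      · refine ⟨(Real.pi : ℂ) * Complex.I, ?_⟩
        intro h0
        simp only [Complex.exp_pi_mul_I, Complex.exp_zero] at h0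
        apply hne
        linear_combination -(1 / 2 : ℂ) * h0
      · intro t h0
        have h2 := hr _ h0
        have h3 : (p.2 - r) * Complex.exp t = 0 := by linear_combination h2
        exact (mul_ne_zero hne (Complex.exp_ne_zero t)) h3
    · refine ⟨fun t => p.2 + t, ?_, ?_, ?_, ?_⟩
      · exact (differentiable_const _).add differentiable_id
      · simp
      · exact ⟨1, by simp⟩
      · intro t h0
        apply hyr
        rw [← hr _ h0]
        exact h0
  obtain ⟨g, hg, hg0, hgc, hav⟩ := key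
  refine ⟨fun _ => p.1, g, differentiable_const _, hg, rfl, hg0, ?_, ?_⟩
  · obtain ⟨t, ht⟩ := hgc
    exact ⟨t, Or.inr ht⟩
  · intro t
    refine ⟨Or.inr (hav t), deriv g t / Ric A B C p.1 (g t), by simp, ?_⟩
    have := hav t
    field_simp

theorem vertical (A B C : ℂ → ℂ) (hA : Differentiable ℂ A) (hB : Differentiable ℂ B)
    (hC : Differentiable ℂ C) :
    volume (PlanePts (fun _ _ => 0) (Ric A B C)) = 0 ∨
      volume (DiscPts (fun _ _ => 0) (Ric A B C)) = 0 := by
  set D : ℂ → ℂ := fun z => A z * (B z ^ 2 - 4 * A z * C z) with hDdef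
  have hD : Differentiable ℂ D := hA.mul ((hB.pow 2).sub ((hA.const_mul 4).mul hC))
  by_cases hne : ∃ z, D z ≠ 0
  · left
    refine measure_mono_null ?_ (null_zeros hD hne)
    intro p hp
    by_contra h
    exact vertical_two h hp
  · right
    push Not at hne
    have hempty : DiscPts (fun _ _ => 0) (Ric A B C) = ∅ := by
      rw [Set.eq_empty_iff_forall_notMem]
      rintro p ⟨hp1, hp2⟩
      apply hp2
      have hq : Ric A B C p.1 p.2 ≠ 0 := by
        rcases hp1 with h | h
        · exact absurd rfl h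
        · exact h
      apply vertical_one hq
      have h0 : A p.1 * (B p.1 ^ 2 - 4 * A p.1 * C p.1) = 0 := hne p.1
      by_cases ha : A p.1 = 0
      · by_cases hb : B p.1 = 0
        · refine ⟨0, fun w hw => ?_⟩
          exfalso
          apply hq
          simp only [Ric, ha, hb, zero_mul, zero_add] at hw ⊢
          exact hw
        · refine ⟨-(C p.1) / B p.1, fun w hw => ?_⟩
          simp only [Ric, ha, zero_mul, zero_add] at hw
          field_simp
          linear_combination hw
      · have hd : B p.1 ^ 2 - 4 * A p.1 * C p.1 = 0 := (mul_eq_zero.1 h0).resolve_left ha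
        refine ⟨-(B p.1) / (2 * A p.1), fun w hw => ?_⟩
        simp only [Ric] at hw
        have h4 : (2 * A p.1 * w + B p.1) ^ 2 = 0 := by
          linear_combination (4 * A p.1) * hw + hd
        have h5 : 2 * A p.1 * w + B p.1 = 0 := by
          exact pow_eq_zero_iff (two_ne_zero) |>.1 h4
        field_simp
        linear_combination h5
    rw [hempty, measure_empty]

end Pool.Agent.H17.RC
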