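import Pool.Agent.H17.RC.One
import Pool.Agent.H17.RC.OneM
import Pool.Agent.H17.RC.Two
import Pool.Agent.H17.RC.Ver
import Pool.Agent.H17.RC.Ex

/-!
# All Riccati fields
-/

set_option autoImplicit false

open MeasureTheory

namespace Pool.Agent.H17.RC

/-- No point over `P ≠ 0` if `P` has two zeros. -/
lemma two_zeros_pts (P A B C : ℂ → ℂ) (hP : Differentiable ℂ P) (hA : Differentiable ℂ A)
    (hB : Differentiable ℂ B) (hC : Differentiable ℂ C) (r s : ℂ)
    (hrs : r ≠ s) (hr : P r = 0) (hs : P s = 0) :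
    ∀ p ∈ PlanePts (fun z _ => P z) (Ric A B C), P p.1 = 0 := by
  rintro p ⟨f, g, hf, hg, hf0, hg0, hnc, ht⟩
  by_contra hp
  have homit : ∀ t, P (f t) ≠ 0 := by
    intro t h0
    have h1 := const_of_hit P A B C hP hA hB hC hf hg ht t h0 0
    rw [hf0] at h1
    rw [← h1] at h0
    exact hp h0
  have hfc : ∀ t, f t = f 0 := picard hf hrs (fun z hz => homit z (by rw [hz]; exact hr))
    (fun z hz => homit z (by rw [hz]; exact hs))
  have hdf : ∀ t, deriv f t = 0 := by
    intro t
    rw [show f = fun _ => f 0 from funext hfc]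
    simp
  have hgc : ∀ t, g t = g 0 := by
    intro t
    apply is_const_of_deriv_eq_zero (𝕜 := ℂ) hg
    intro u
    obtain ⟨-, l, h1, h2⟩ := ht u
    rw [hdf u] at h1
    have hl : l = 0 := (mul_eq_zero.mp h1.symm).resolve_right (homit u)
    rw [h2, hl, zero_mul]
  obtain ⟨t, h1 | h1⟩ := hnc
  · exact h1 (hfc t)
  · exact h1 (hgc t)

/-- **All or at most three** leaves over `P ≠ 0`. -/
theorem all_or_three (P A B C : ℂ → ℂ) (hP : Differentiable ℂ P) (hA : Differentiable ℂ A)
    (hB : Differentiable ℂ B) (hC : Differentiable ℂ C) (hne : ∃ z, P z ≠ 0) :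
    (∀ p : ℂ × ℂ, P p.1 ≠ 0 → p ∈ PlanePts (fun z _ => P z) (Ric A B C)) ∨
      ∃ (c : ℂ → ℂ) (x y : Fin 3 → ℂ → ℂ), Differentiable ℂ c ∧ (∀ s, P (c s) ≠ 0) ∧
        (∀ i, Differentiable ℂ (x i) ∧ Differentiable ℂ (y i) ∧ (∀ s, x i s ≠ 0 ∨ y i s ≠ 0) ∧
          ∀ s, y i s ≠ 0 → HasDerivAt (fun s => x i s / y i s)
            (deriv c s * (Ric A B C (c s) (x i s / y i s) / P (c s))) s) ∧
        ∀ p ∈ PlanePts (fun z _ => P z) (Ric A B C), P p.1 ≠ 0 →
          ∃ i s, y i s ≠ 0 ∧ p = (c s, x i s / y i s) := by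
  have fin : ∀ {a x y : ℂ}, (x ≠ 0 ∨ y ≠ 0) → y * a = x → y ≠ 0 ∧ a = x / y := by
    intro a x y h1 h2
    have hy : y ≠ 0 := by
      intro h0
      rw [h0, zero_mul] at h2
      rcases h1 with h | h
      · exact h h2.symm
      · exact h h0
    exact ⟨hy, by rw [← h2]; field_simp⟩
  by_cases h0 : ∀ z, P z ≠ 0
  · rcases zero_free_strong P A B C hP hA hB hC h0 with h | ⟨x, y, h1, h2⟩
    · left
      intro p _
      rw [h]
      trivial
    · right
      refine ⟨fun s => s, x, y, differentiable_id, h0, fun i => ⟨(h1 i).1, (h1 i).2.1,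
        (h1 i).2.2.1, fun s hs => ?_⟩, ?_⟩
      · have h3 := (h1 i).2.2.2 s hs
        have h4 : deriv (fun s : ℂ => s) s = 1 := deriv_id s
        rw [h4, one_mul]
        exact h3
      · intro p hp _
        obtain ⟨i, hi⟩ := h2 hp
        obtain ⟨h3, h4⟩ := fin ((h1 i).2.2.1 p.1) hi
        exact ⟨i, p.1, h3, Prod.ext rfl h4⟩
  · push Not at h0
    obtain ⟨r, hr⟩ := h0
    by_cases h1 : ∀ z, P z = 0 → z = r
    · have hiff : ∀ z, P z = 0 ↔ z = r := fun z => ⟨h1 z, fun h => by rw [h]; exact hr⟩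
      rcases one_zero_strong P A B C hP hA hB hC r hiff with h | ⟨x, y, h2, h3⟩
      · left
        intro p hp
        exact h p (fun h4 => hp ((hiff _).mpr h4))
      · right
        refine ⟨fun s => r + Complex.exp s, x, y,
          (differentiable_const _).add Complex.differentiable_exp, ?_, fun i => ⟨(h2 i).1,
          (h2 i).2.1, (h2 i).2.2.1, fun s hs => ?_⟩, ?_⟩
        · intro s h4
          have h5 := (hiff _).mp h4
          exact Complex.exp_ne_zero s (by linear_combination h5)
        · have h4 := (h2 i).2.2.2 s hs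
          have h5 : deriv (fun s : ℂ => r + Complex.exp s) s = Complex.exp s := by
            simp
          rw [h5, ← mul_div_assoc]
          exact h4
        · intro p hp hp0
          obtain ⟨i, s, h4, h5⟩ := h3 p hp (fun h6 => hp0 ((hiff _).mpr h6))
          obtain ⟨h6, h7⟩ := fin ((h2 i).2.2.1 s) h5
          exact ⟨i, s, h6, Prod.ext h4.symm h7⟩
    · push Not at h1
      obtain ⟨s, hs, hsr⟩ := h1
      right
      obtain ⟨z0, hz0⟩ := hne
      refine ⟨fun _ => z0, fun _ _ => 0, fun _ _ => 1, differentiable_const _, fun _ => hz0,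
        fun i => ⟨differentiable_const _, differentiable_const _, fun _ => Or.inr one_ne_zero,
          fun t _ => ?_⟩, ?_⟩
      · simp only [zero_div, deriv_const, zero_mul]
        exact hasDerivAt_const t _
      · intro p hp hp0
        exact absurd (two_zeros_pts P A B C hP hA hB hC s r hsr hs hr p hp) hp0

/-- Measure form. -/
theorem measure_form (P A B C : ℂ → ℂ) (hP : Differentiable ℂ P) (hA : Differentiable ℂ A)
    (hB : Differentiable ℂ B) (hC : Differentiable ℂ C) :
    volume (PlanePts (fun z _ => P z) (Ric A B C)) = 0 ∨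
      volume (DiscPts (fun z _ => P z) (Ric A B C)) = 0 := by
  by_cases hne : ∃ z, P z ≠ 0
  · by_cases h0 : ∀ z, P z ≠ 0
    · rcases zero_free P A B C hP hA hB hC h0 with h | h
      · right
        rw [DiscPts, h]
        simp
      · exact Or.inl h
    · push Not at h0
      obtain ⟨r, hr⟩ := h0
      by_cases h1 : ∀ z, P z = 0 → z = r
      · exact one_zero_of_strong P A B C r (one_zero_strong P A B C hP hA hB hC r
          fun z => ⟨h1 z, fun h => by rw [h]; exact hr⟩)
      · push Not at h1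
        obtain ⟨s, hs, hsr⟩ := h1
        exact Or.inl (two_zeros P A B C hP hA hB hC hne s r hsr hs hr)
  · push Not at hne
    have hP0 : P = fun _ => 0 := funext hne
    subst hP0
    exact vertical A B C hA hB hC

end Pool.Agent.H17.RC
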