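import Pool.Agent.H17.RC.Defs

/-!
# Riccati fields: the curve `w = x / y`
-/

set_option autoImplicit false

namespace Pool.Agent.H17.RC

variable {A B C : ℂ → ℂ} {x y x' y' : ℂ → ℂ}

/-- `(x, y)` solves the linear system of the Riccati equation. -/
structure Sol (A B C x y : ℂ → ℂ) : Prop where
  dx : ∀ z, HasDerivAt x (B z / 2 * x z + C z * y z) z
  dy : ∀ z, HasDerivAt y (-A z * x z + -(B z / 2) * y z) z

lemma Sol.diffx (h : Sol A B C x y) : Differentiable ℂ x := fun z => (h.dx z).differentiableAt

lemma Sol.diffy (h : Sol A B C x y) : Differentiable ℂ y := fun z => (h.dy z).differentiableAt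

lemma Sol.comb (h : Sol A B C x y) (h' : Sol A B C x' y') (a b : ℂ) :
    Sol A B C (fun z => a * x z + b * x' z) (fun z => a * y z + b * y' z) := by
  constructor
  · intro z
    have h1 : HasDerivAt (fun z => a * x z + b * x' z)
        (a * (B z / 2 * x z + C z * y z) + b * (B z / 2 * x' z + C z * y' z)) z :=
      ((h.dx z).const_mul a).add ((h'.dx z).const_mul b)
    have h2 : a * (B z / 2 * x z + C z * y z) + b * (B z / 2 * x' z + C z * y' z) =
        B z / 2 * (a * x z + b * x' z) + C z * (a * y z + b * y' z) := by ring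
    rwa [h2] at h1
  · intro z
    have h1 : HasDerivAt (fun z => a * y z + b * y' z)
        (a * (-A z * x z + -(B z / 2) * y z) + b * (-A z * x' z + -(B z / 2) * y' z)) z :=
      ((h.dy z).const_mul a).add ((h'.dy z).const_mul b)
    have h2 : a * (-A z * x z + -(B z / 2) * y z) + b * (-A z * x' z + -(B z / 2) * y' z) =
        -A z * (a * x z + b * x' z) + -(B z / 2) * (a * y z + b * y' z) := by ring
    rwa [h2] at h1

/-- The Wronskian is constant. -/
lemma Sol.wronskian (h : Sol A B C x y) (h' : Sol A B C x' y') (z : ℂ) :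
    x z * y' z - x' z * y z = x 0 * y' 0 - x' 0 * y 0 := by
  apply is_const_of_deriv_eq_zero (𝕜 := ℂ) (f := fun z => x z * y' z - x' z * y z)
  · exact (h.diffx.mul h'.diffy).sub (h'.diffx.mul h.diffy)
  · intro z
    have h1 : HasDerivAt (fun z => x z * y' z - x' z * y z)
        ((B z / 2 * x z + C z * y z) * y' z + x z * (-A z * x' z + -(B z / 2) * y' z) -
          ((B z / 2 * x' z + C z * y' z) * y z + x' z * (-A z * x z + -(B z / 2) * y z))) z :=
      ((h.dx z).mul (h'.dy z)).sub ((h'.dx z).mul (h.dy z))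
    rw [h1.deriv]
    ring

/-- The quotient solves the Riccati equation. -/
lemma Sol.riccati (h : Sol A B C x y) (z : ℂ) (hz : y z ≠ 0) :
    HasDerivAt (fun z => x z / y z) (A z * (x z / y z) ^ 2 + B z * (x z / y z) + C z) z := by
  have h1 : HasDerivAt (fun z => x z / y z) (((B z / 2 * x z + C z * y z) * y z -
      x z * (-A z * x z + -(B z / 2) * y z)) / y z ^ 2) z := (h.dx z).div (h.dy z) hz
  have h2 : ((B z / 2 * x z + C z * y z) * y z -
      x z * (-A z * x z + -(B z / 2) * y z)) / y z ^ 2 =
      A z * (x z / y z) ^ 2 + B z * (x z / y z) + C z := by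
    field_simp
    ring
  rwa [h2] at h1

/-- A scalar linear equation with zero initial value. -/
lemma linear_zero {E k : ℂ → ℂ} (hk : Differentiable ℂ k)
    (hE : ∀ t, HasDerivAt E (k t * E t) t) (h0 : E 0 = 0) (t : ℂ) : E t = 0 := by
  obtain ⟨K, -, hK⟩ := (hk.isExactOn_univ).with_val_at 0 0
  have hK' : ∀ z, HasDerivAt K (k z) z := fun z => hK z (Set.mem_univ z)
  have hconst : ∀ z, E z * Complex.exp (-K z) = E 0 * Complex.exp (-K 0) := by
    intro z
    apply is_const_of_deriv_eq_zero (𝕜 := ℂ) (f := fun z => E z * Complex.exp (-K z))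
    · exact fun z => ((hE z).mul ((hK' z).neg.cexp)).differentiableAt
    · intro z
      have h1 : HasDerivAt (fun z => E z * Complex.exp (-K z))
          (k z * E z * Complex.exp (-K z) + E z * (Complex.exp (-K z) * (-(k z)))) z :=
        (hE z).mul ((hK' z).neg.cexp)
      rw [h1.deriv]
      ring
  have h2 := hconst t
  rw [h0, zero_mul] at h2
  exact (mul_eq_zero.mp h2).resolve_right (Complex.exp_ne_zero _)

/-- An entire curve tangent to the Riccati field stays on the curve `y w = x`. -/
lemma Sol.stay (h : Sol A B C x y) (hA : Differentiable ℂ A) (hB : Differentiable ℂ B)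
    {f g : ℂ → ℂ} (hf : Differentiable ℂ f)
    (hg : ∀ t, HasDerivAt g (deriv f t * (A (f t) * g t ^ 2 + B (f t) * g t + C (f t))) t)
    (h0 : x (f 0) = g 0 * y (f 0)) (t : ℂ) : x (f t) = g t * y (f t) := by
  have hf' : ∀ t, HasDerivAt f (deriv f t) t := fun t => (hf t).hasDerivAt
  have hdf : Differentiable ℂ (deriv f) := (hf.contDiff (n := 2)).differentiable_deriv_two
  have hgd : Differentiable ℂ g := fun t => (hg t).differentiableAt
  have hk : Differentiable ℂ (fun t => deriv f t * (B (f t) / 2 + A (f t) * g t)) :=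
    hdf.mul (((hB.comp hf).div_const 2).add ((hA.comp hf).mul hgd))
  have hE := linear_zero (E := fun t => x (f t) - g t * y (f t)) hk (by
    intro t
    have h1 : HasDerivAt (fun t => x (f t) - g t * y (f t))
        ((B (f t) / 2 * x (f t) + C (f t) * y (f t)) * deriv f t -
          (deriv f t * (A (f t) * g t ^ 2 + B (f t) * g t + C (f t)) * y (f t) +
            g t * ((-A (f t) * x (f t) + -(B (f t) / 2) * y (f t)) * deriv f t))) t :=
      ((h.dx (f t)).comp t (hf' t)).sub ((hg t).mul ((h.dy (f t)).comp t (hf' t)))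
    convert h1 using 1
    ring) (by simp [h0]) t
  exact sub_eq_zero.mp hE

end Pool.Agent.H17.RC
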